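import Pool.Agent.H546R2.SL.A13

set_option autoImplicit false
set_option linter.unusedSectionVars false

open MvPolynomial Finset

namespace Pool.Agent.H546R2.SL

lemma map_perN {K L : Type*} [CommRing K] [CommRing L] (f : K →+* L) (N : ℕ) :
    MvPolynomial.map f (perN K N) = perN L N := by
  unfold perN
  rw [map_permanent (MvPolynomial.map f)
    (fun i j : Fin N => (X (i, j) : MvPolynomial (Fin N × Fin N) K))]
  simp only [map_X]

/-- base change of a straight-line program -/
lemma NSLP.map {K L : Type*} [Field K] [Field L] (f : K →+* L) {σ : Type*} {s : ℕ}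
    {M : Finset ℕ} {g : ℕ → MvPolynomial σ K} (hg : NSLP s M g) :
    NSLP s M (fun i => MvPolynomial.map f (g i)) := by
  intro i hi
  rcases hg i hi with ⟨hiM, hsp⟩ | ⟨hiM, a, ha, b, hb, hab⟩
  · refine Or.inl ⟨hiM, ?_⟩
    have key : ∀ p ∈ Submodule.span K
        ({1} ∪ Set.range (X : σ → MvPolynomial σ K) ∪ g '' {j | j < i}),
        MvPolynomial.map f p ∈ Submodule.span L
        ({1} ∪ Set.range (X : σ → MvPolynomial σ L) ∪
          (fun i => MvPolynomial.map f (g i)) '' {j | j < i}) := by
      intro p hp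
      induction hp using Submodule.span_induction with
      | mem p hp =>
        apply Submodule.subset_span
        rcases hp with (hp | ⟨u, rfl⟩) | ⟨j, hj, rfl⟩
        · rw [Set.mem_singleton_iff] at hp
          subst hp
          left; left
          rw [Set.mem_singleton_iff, map_one]
        · left; right
          exact ⟨u, (map_X f u).symm⟩
        · right
          exact ⟨j, hj, rfl⟩
      | zero => rw [map_zero]; exact Submodule.zero_mem _
      | add p q _ _ ihp ihq => rw [map_add]; exact Submodule.add_mem _ ihp ihq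
      | smul a p _ ihp =>
        rw [smul_eq_C_mul, map_mul, map_C, ← smul_eq_C_mul]
        exact Submodule.smul_mem _ _ ihp
    exact key _ hsp
  · refine Or.inr ⟨hiM, a, ha, b, hb, ?_⟩
    beta_reduce
    rw [hab, map_mul]

/-- superlinear lower bound for the number of product lines -/
theorem superlinear (K : Type*) [Field K] [CharZero K] (c : ℕ) :
    ∃ N₀ : ℕ, ∀ N ≥ N₀, ∀ (s : ℕ) (M : Finset ℕ) (g : ℕ → MvPolynomial (Fin N × Fin N) K),
      NSLP s M g → (∃ i < s, perN K N = g i) → c * N ^ 2 ≤ M.card := by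
  set k := 2 ^ (90 * c) + 1 with hk
  have hk1 : 1 ≤ 2 ^ (90 * c) := Nat.one_le_two_pow
  have hk2 : 2 ≤ k := by omega
  obtain ⟨E₀, hE⟩ := rows_finite (AlgebraicClosure K) k hk2
  refine ⟨60 * k + 40 * E₀ ^ 2 + 40, ?_⟩
  intro N hN s M g hg hf
  have hg' := hg.map (algebraMap K (AlgebraicClosure K))
  have hf' : ∃ i < s, perN (AlgebraicClosure K) N =
      (fun i => MvPolynomial.map (algebraMap K (AlgebraicClosure K)) (g i)) i := by
    obtain ⟨i, hi, hfi⟩ := hf
    refine ⟨i, hi, ?_⟩
    beta_reduce
    rw [← hfi, map_perN]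
  set B := N / (6 * k) with hB
  have hB1 : B * (6 * k) ≤ N := Nat.div_mul_le_self N (6 * k)
  have hB2 : N < B * (6 * k) + 6 * k := by
    have := Nat.lt_div_mul_add (a := N) (b := 6 * k) (by omega)
    exact this
  have hBpos : 0 < B := Nat.div_pos (by omega) (by omega)
  set L := N / 4 - E₀ ^ 2 with hL
  have hBk : (B - 1) * k + k = B * k := by
    have : B = (B - 1) + 1 := by omega
    conv_rhs => rw [this]
    ring
  have h6 : B * (6 * k) = 6 * (B * k) := by ring
  have h2 : B * (2 * k) = 2 * (B * k) := by ring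
  rw [h6] at hB1 hB2
  have hmain := main_ineq (AlgebraicClosure K) (k := k)
    (n := N - (B * (2 * k) + (B - 1) * k)) (n₁ := N / 4) (L := L) (B := B) (E₀ := E₀)
    hk2 (by omega) hBpos (by omega) (by omega) hE N (by omega) s M _ hg' hf'
  rw [show k - 1 = 2 ^ (90 * c) by omega, ← pow_mul] at hmain
  have h3 := (Nat.pow_le_pow_iff_right (by norm_num : 1 < 2)).mp hmain
  -- 30 * (B L k) ≥ N^2
  have h4 : 9 * N ≤ 60 * (B * k) := by omega
  have h5 : 9 * N ≤ 40 * L := by omega
  have h7 : (9 * N) * (9 * N) ≤ (60 * (B * k)) * (40 * L) := Nat.mul_le_mul h4 h5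
  have h8 : N ^ 2 ≤ 30 * (B * (L * k)) := by nlinarith
  have h9 : c * N ^ 2 ≤ c * (30 * (B * (L * k))) := Nat.mul_le_mul_left c h8
  have h10 : 90 * c * (B * (L * k)) = 3 * (c * (30 * (B * (L * k)))) := by ring
  omega

end Pool.Agent.H546R2.SL
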