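import Pool.Agent.H546R2.SL.A2

set_option autoImplicit false

open Module MvPolynomial

namespace Pool.Agent.H546R2.SL

variable {K A : Type*} [Field K] [CommRing A] [Algebra K A] {σ : Type*}

/-- `g 0, …, g (s-1)` is a straight-line program in which additions and scalar multiplications
are free, with product lines `M` -/
def NSLP (s : ℕ) (M : Finset ℕ) (g : ℕ → MvPolynomial σ K) : Prop :=
  ∀ i < s, (i ∉ M ∧ g i ∈ Submodule.span K
      ({1} ∪ Set.range (X : σ → MvPolynomial σ K) ∪ g '' {j | j < i})) ∨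
    (i ∈ M ∧ ∃ a < i, ∃ b < i, g i = g a * g b)

/-- the part of `M` below `j` -/
def lowM (M : Finset ℕ) (j : ℕ) : Finset ℕ := M.filter (· < j)

/-- the part of `M` from `j` to `s` -/
def highM (M : Finset ℕ) (j s : ℕ) : Finset ℕ := M.filter fun i => j ≤ i ∧ i < s

lemma lowM_succ_mem {M : Finset ℕ} {j : ℕ} (h : j ∈ M) :
    (lowM M (j + 1)).card = (lowM M j).card + 1 := by
  have : lowM M (j + 1) = insert j (lowM M j) := by
    ext i
    simp only [lowM, Finset.mem_filter, Finset.mem_insert]
    constructor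
    · rintro ⟨h1, h2⟩
      by_cases h3 : i = j
      · exact Or.inl h3
      · exact Or.inr ⟨h1, by omega⟩
    · rintro (h1 | ⟨h1, h2⟩)
      · subst h1; exact ⟨h, by omega⟩
      · exact ⟨h1, by omega⟩
  rw [this, Finset.card_insert_of_notMem]
  simp [lowM]

lemma lowM_succ_le (M : Finset ℕ) (j : ℕ) : (lowM M j).card ≤ (lowM M (j + 1)).card := by
  apply Finset.card_le_card
  intro i
  simp only [lowM, Finset.mem_filter]
  rintro ⟨h1, h2⟩
  exact ⟨h1, by omega⟩

lemma lowM_le (M : Finset ℕ) (j : ℕ) : (lowM M j).card ≤ M.card :=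
  Finset.card_le_card (Finset.filter_subset _ _)

lemma highM_le (M : Finset ℕ) (j s : ℕ) : (highM M j s).card ≤ M.card :=
  Finset.card_le_card (Finset.filter_subset _ _)

lemma highM_mem {M : Finset ℕ} {j s : ℕ} (h : j ∈ M) (hj : j < s) :
    (highM M j s).card = (highM M (j + 1) s).card + 1 := by
  have : highM M j s = insert j (highM M (j + 1) s) := by
    ext i
    simp only [highM, Finset.mem_filter, Finset.mem_insert]
    constructor
    · rintro ⟨h1, h2, h3⟩
      by_cases h4 : i = j
      · exact Or.inl h4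
      · exact Or.inr ⟨h1, by omega, h3⟩
    · rintro (h1 | ⟨h1, h2, h3⟩)
      · subst h1; exact ⟨h, le_rfl, hj⟩
      · exact ⟨h1, by omega, h3⟩
  rw [this, Finset.card_insert_of_notMem]
  simp [highM]

lemma highM_anti (M : Finset ℕ) (j s : ℕ) : (highM M (j + 1) s).card ≤ (highM M j s).card := by
  apply Finset.card_le_card
  intro i
  simp only [highM, Finset.mem_filter]
  rintro ⟨h1, h2, h3⟩
  exact ⟨h1, by omega, h3⟩

/-- forward pass -/
lemma forward' [IsDomain A] {h : ℕ → ℕ} {W₀ : Submodule K A} (hW₀ : Good h 0 W₀)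
    (S : MvPolynomial σ K →ₐ[K] A) (hS : ∀ v, S (X v) ∈ W₀) (s : ℕ) (M : Finset ℕ)
    (g : ℕ → MvPolynomial σ K) (hg : NSLP s M g) :
    ∀ j ≤ s, ∃ W : Submodule K A, W₀ ≤ W ∧ Good h (lowM M j).card W ∧ ∀ i < j, S (g i) ∈ W := by
  intro j
  induction j with
  | zero => intro _; exact ⟨W₀, le_rfl, hW₀.mono (Nat.zero_le _), fun i hi => absurd hi (by omega)⟩
  | succ j ih =>
    intro hj
    obtain ⟨W, h0, hW, hW2⟩ := ih (by omega)
    have key : ∀ W' : Submodule K A, W ≤ W' → S (g j) ∈ W' → ∀ i < j + 1, S (g i) ∈ W' := by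
      intro W' hle hj' i hi
      rcases Nat.lt_succ_iff_lt_or_eq.mp hi with h1 | h1
      · exact hle (hW2 i h1)
      · rw [h1]; exact hj'
    rcases hg j (by omega) with ⟨_, hsp⟩ | ⟨hjM, a, ha, b, hb, hab⟩
    · refine ⟨W, h0, hW.mono (lowM_succ_le M j), key W le_rfl ?_⟩
      have h1 : Submodule.span K
          ({1} ∪ Set.range (X : σ → MvPolynomial σ K) ∪ g '' {i | i < j}) ≤
          W.comap S.toLinearMap := by
        rw [Submodule.span_le]
        rintro p ((hp | ⟨v, rfl⟩) | ⟨i, hi, rfl⟩)
        · rw [Set.mem_singleton_iff] at hp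
          subst hp
          change S 1 ∈ W
          rw [map_one]; exact hW.one
        · exact h0 (hS v)
        · exact hW2 i hi
      exact h1 hsp
    · refine ⟨W ⊔ Submodule.span K {S (g a) * S (g b)}, h0.trans le_sup_left,
        (hW.step (hW2 a ha) (hW2 b hb)).mono (lowM_succ_mem hjM).ge, key _ le_sup_left ?_⟩
      rw [hab, map_mul]
      exact (le_sup_right (a := W)) (Submodule.mem_span_singleton_self _)

lemma span_deriv (g : ℕ → MvPolynomial σ K) (i : ℕ) (p : MvPolynomial σ K)
    (hp : p ∈ Submodule.span K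
      ({1} ∪ Set.range (X : σ → MvPolynomial σ K) ∪ g '' {j | j < i})) :
    ∃ c : ℕ → K, ∀ v, ∃ e : K, pderiv v p =
      C e + ∑ j ∈ Finset.range i, C (c j) * pderiv v (g j) := by
  classical
  induction hp using Submodule.span_induction with
  | mem p hp =>
    rcases hp with (hp | ⟨u, rfl⟩) | ⟨j, hj, rfl⟩
    · rw [Set.mem_singleton_iff] at hp
      subst hp
      refine ⟨0, fun v => ⟨0, ?_⟩⟩
      simp
    · refine ⟨0, fun v => ⟨if u = v then 1 else 0, ?_⟩⟩
      by_cases h : u = v
      · subst h; simp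
      · rw [pderiv_X_of_ne h, if_neg h]; simp
    · refine ⟨fun j' => if j' = j then 1 else 0, fun v => ⟨0, ?_⟩⟩
      rw [map_zero, zero_add, Finset.sum_eq_single_of_mem j (Finset.mem_range.mpr hj)]
      · beta_reduce
        rw [if_pos rfl, map_one, one_mul]
      · intro j' _ hj'
        beta_reduce
        rw [if_neg hj', map_zero, zero_mul]
  | zero =>
    refine ⟨0, fun v => ⟨0, ?_⟩⟩
    simp
  | add p q _ _ ihp ihq =>
    obtain ⟨c, hc⟩ := ihp
    obtain ⟨d, hd⟩ := ihq
    refine ⟨c + d, fun v => ?_⟩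
    obtain ⟨e, he⟩ := hc v
    obtain ⟨e', he'⟩ := hd v
    refine ⟨e + e', ?_⟩
    rw [map_add, he, he']
    simp only [Pi.add_apply, map_add, add_mul, Finset.sum_add_distrib]
    ring
  | smul a p _ ihp =>
    obtain ⟨c, hc⟩ := ihp
    refine ⟨fun j => a * c j, fun v => ?_⟩
    obtain ⟨e, he⟩ := hc v
    refine ⟨a * e, ?_⟩
    rw [smul_eq_C_mul, Derivation.leibniz, pderiv_C, smul_zero, add_zero, smul_eq_mul, he,
      mul_add, Finset.mul_sum]
    simp only [map_mul, mul_assoc]

/-- backward pass (Baur–Strassen) -/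
lemma backward' [IsDomain A] {h : ℕ → ℕ} (S : MvPolynomial σ K →ₐ[K] A) (s : ℕ) (M : Finset ℕ)
    (g : ℕ → MvPolynomial σ K) (hg : NSLP s M g) (R : ℕ) (W : Submodule K A) (hW : Good h R W)
    (hgW : ∀ i < s, S (g i) ∈ W) (f : MvPolynomial σ K) (hf : ∃ i < s, f = g i) :
    ∀ d ≤ s, ∃ W' : Submodule K A, W ≤ W' ∧ Good h (R + 2 * (highM M (s - d) s).card) W' ∧
      ∃ lam : ℕ → A, (∀ i, lam i ∈ W') ∧ ∀ v, ∃ μ ∈ W',
        S (pderiv v f) = (∑ i ∈ Finset.range (s - d), lam i * S (pderiv v (g i))) + μ := by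
  classical
  intro d
  induction d with
  | zero =>
    intro _
    obtain ⟨i₀, hi₀, hfi⟩ := hf
    refine ⟨W, le_rfl, hW.mono (by omega), fun i => if i = i₀ then 1 else 0, ?_, ?_⟩
    · intro i
      by_cases hi : i = i₀
      · simp only [if_pos hi]; exact hW.one
      · simp only [if_neg hi]; exact W.zero_mem
    · intro v
      refine ⟨0, W.zero_mem, ?_⟩
      rw [add_zero, Nat.sub_zero]
      simp only [ite_mul, one_mul, zero_mul]
      rw [Finset.sum_ite_eq' (Finset.range s) i₀, if_pos (Finset.mem_range.mpr hi₀), hfi]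
  | succ d ih =>
    intro hd
    obtain ⟨W', hWW', hW', lam, hlam, hexp⟩ := ih (by omega)
    set j := s - (d + 1) with hj
    have hsj : s - d = j + 1 := by omega
    have hjs : j < s := by omega
    rw [hsj] at hexp hW'
    simp_rw [Finset.sum_range_succ] at hexp
    rcases hg j hjs with ⟨_, hsp⟩ | ⟨hjM, a, ha, b, hb, hab⟩
    · obtain ⟨c, hc⟩ := span_deriv g j (g j) hsp
      refine ⟨W', hWW', hW'.mono (by have := highM_anti M j s; omega),
        fun i => lam i + c i • lam j, ?_, ?_⟩
      · intro i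
        exact W'.add_mem (hlam i) (W'.smul_mem _ (hlam j))
      · intro v
        obtain ⟨μ, hμ, he⟩ := hexp v
        obtain ⟨e, hce⟩ := hc v
        refine ⟨μ + e • lam j, W'.add_mem hμ (W'.smul_mem _ (hlam j)), ?_⟩
        rw [he]
        have h1 : S (pderiv v (g j)) = algebraMap K A e +
            ∑ i ∈ Finset.range j, algebraMap K A (c i) * S (pderiv v (g i)) := by
          rw [hce, map_add, map_sum, ← algebraMap_eq, AlgHom.commutes]
          simp only [map_mul, ← algebraMap_eq, AlgHom.commutes]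
        rw [h1, mul_add, Finset.mul_sum]
        simp only [add_mul, Finset.sum_add_distrib, Algebra.smul_def]
        have h2 : ∑ i ∈ Finset.range j, lam j * (algebraMap K A (c i) * S (pderiv v (g i))) =
            ∑ i ∈ Finset.range j, algebraMap K A (c i) * lam j * S (pderiv v (g i)) := by
          apply Finset.sum_congr rfl
          intro i _
          ring
        rw [h2]
        ring
    · -- product
      have hga : S (g a) ∈ W' := hWW' (hgW a (by omega))
      have hgb : S (g b) ∈ W' := hWW' (hgW b (by omega))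
      have h1 := hW'.step (hlam j) hgb
      have hle1 : W' ≤ W' ⊔ Submodule.span K {lam j * S (g b)} := le_sup_left
      have h2 := h1.step (hle1 (hlam j)) (hle1 hga)
      set W'' := W' ⊔ Submodule.span K {lam j * S (g b)} ⊔ Submodule.span K {lam j * S (g a)}
        with hW''
      have hle2 : W' ≤ W'' := hle1.trans le_sup_left
      have hm1 : lam j * S (g b) ∈ W'' :=
        (le_sup_left (b := Submodule.span K {lam j * S (g a)}))
          ((le_sup_right (a := W')) (Submodule.mem_span_singleton_self _))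
      have hm2 : lam j * S (g a) ∈ W'' :=
        (le_sup_right (a := W' ⊔ Submodule.span K {lam j * S (g b)}))
          (Submodule.mem_span_singleton_self _)
      refine ⟨W'', hWW'.trans hle2, h2.mono (by rw [highM_mem hjM hjs]; omega),
        fun i => lam i + (if i = a then lam j * S (g b) else 0) +
          (if i = b then lam j * S (g a) else 0), ?_, ?_⟩
      · intro i
        refine W''.add_mem (W''.add_mem (hle2 (hlam i)) ?_) ?_
        · split_ifs
          · exact hm1
          · exact W''.zero_mem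
        · split_ifs
          · exact hm2
          · exact W''.zero_mem
      · intro v
        obtain ⟨μ, hμ, he⟩ := hexp v
        refine ⟨μ, hle2 hμ, ?_⟩
        rw [he, hab]
        simp only [Derivation.leibniz, smul_eq_mul, map_add, map_mul, add_mul, ite_mul, zero_mul,
          Finset.sum_add_distrib, mul_add]
        rw [Finset.sum_ite_eq' (Finset.range j) a, Finset.sum_ite_eq' (Finset.range j) b,
          if_pos (Finset.mem_range.mpr ha), if_pos (Finset.mem_range.mpr hb)]
        ring

/-- all partial derivatives of the output lie in a good space with `R = 3 |M|` -/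
theorem gradient_good' [IsDomain A] {h : ℕ → ℕ} {W₀ : Submodule K A} (hW₀ : Good h 0 W₀)
    (S : MvPolynomial σ K →ₐ[K] A) (hS : ∀ v, S (X v) ∈ W₀) (s : ℕ) (M : Finset ℕ)
    (g : ℕ → MvPolynomial σ K) (hg : NSLP s M g) (f : MvPolynomial σ K)
    (hf : ∃ i < s, f = g i) :
    ∃ W : Submodule K A, W₀ ≤ W ∧ Good h (3 * M.card) W ∧ ∀ v, S (pderiv v f) ∈ W := by
  obtain ⟨W, h0, hW, hgW⟩ := forward' hW₀ S hS s M g hg s le_rfl
  obtain ⟨W', hWW', hW', lam, _, hexp⟩ := backward' S s M g hg _ W hW hgW f hf s le_rfl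
  refine ⟨W', h0.trans hWW', hW'.mono ?_, fun v => ?_⟩
  · have h1 := lowM_le M s
    have h2 := highM_le M (s - s) s
    omega
  · obtain ⟨μ, hμ, he⟩ := hexp v
    rw [Nat.sub_self, Finset.range_zero, Finset.sum_empty, zero_add] at he
    rw [he]
    exact hμ

end Pool.Agent.H546R2.SL
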