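import Mathlib

set_option autoImplicit false

open Module

namespace Pool.Agent.H546R2.SL

variable {K A : Type*} [Field K] [CommRing A] [Algebra K A]

/-- multiplying a subspace by a nonzero element does not change its dimension -/
lemma finrank_span_mul [IsDomain A] (c : A) (hc : c ≠ 0) (W : Submodule K A) :
    finrank K ↥(Submodule.span K {c} * W) = finrank K W := by
  have h : Submodule.span K {c} * W = W.map (LinearMap.mulLeft K c) := by
    ext x
    rw [Submodule.mem_span_singleton_mul, Submodule.mem_map]
    simp only [LinearMap.mulLeft_apply]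
  rw [h]
  have hinj : Function.Injective (LinearMap.mulLeft K c) := by
    intro x y hxy
    simpa using mul_left_cancel₀ hc hxy
  exact (Submodule.equivMapOfInjective _ hinj W).finrank_eq.symm

lemma pow_mono_of_one_mem (W : Submodule K A) (h1 : (1 : A) ∈ W) {s t : ℕ} (hst : s ≤ t) :
    W ^ s ≤ W ^ t := by
  obtain ⟨d, rfl⟩ := Nat.exists_eq_add_of_le hst
  clear hst
  induction d with
  | zero => exact le_rfl
  | succ d ih =>
    refine ih.trans ?_
    rw [← add_assoc, pow_succ]
    intro x hx
    have : x * 1 ∈ W ^ (s + d) * W := Submodule.mul_mem_mul hx h1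
    rwa [mul_one] at this

/-- powers of `W ⊔ K c` -/
lemma sup_pow_succ (c : A) (W : Submodule K A) (t : ℕ) :
    (W ⊔ Submodule.span K {c}) ^ (t + 1) =
      W ^ (t + 1) ⊔ Submodule.span K {c} * (W ⊔ Submodule.span K {c}) ^ t := by
  induction t with
  | zero => simp
  | succ t ih =>
    set V := W ⊔ Submodule.span K {c} with hV
    have hWV : W ≤ V := le_sup_left
    have hcV : Submodule.span K {c} ≤ V := le_sup_right
    apply le_antisymm
    · calc V ^ (t + 1 + 1) = V * V ^ (t + 1) := by rw [pow_succ']
        _ = W * V ^ (t + 1) ⊔ Submodule.span K {c} * V ^ (t + 1) := by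
            conv_lhs => rw [hV, Submodule.sup_mul]
        _ ≤ W ^ (t + 1 + 1) ⊔ Submodule.span K {c} * V ^ (t + 1) := by
            apply sup_le _ le_sup_right
            rw [ih, Submodule.mul_sup, ← pow_succ']
            apply sup_le_sup_left
            rw [← mul_assoc, mul_comm W, mul_assoc]
            have h2 : W * V ^ t ≤ V ^ (t + 1) := by
              rw [pow_succ']
              exact mul_le_mul' hWV le_rfl
            have h3 := mul_le_mul' (le_refl (Submodule.span K {c})) h2
            rw [ih] at h3
            exact h3
    · apply sup_le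
      · exact pow_le_pow_left' hWV _
      · rw [pow_succ' V (t + 1)]
        exact mul_le_mul' hcV le_rfl

/-- the one-step growth inequality -/
lemma growth_step [IsDomain A] (W : Submodule K A) (hW : W.FG) (h1 : (1 : A) ∈ W) (u v : A)
    (hu : u ∈ W) (hv : v ∈ W) (t : ℕ) :
    finrank K ↥((W ⊔ Submodule.span K {u * v}) ^ (t + 1)) ≤
      finrank K ↥(W ^ (t + 1)) + finrank K ↥(W ^ t) := by
  set c := u * v with hc
  set V := W ⊔ Submodule.span K {c} with hV
  have hVfg : V.FG := hW.sup (Submodule.fg_span_singleton c)
  have fdW : ∀ s, FiniteDimensional K ↥(W ^ s) := fun s =>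
    Module.Finite.iff_fg.mpr (hW.pow s)
  have fdV : ∀ s, FiniteDimensional K ↥(V ^ s) := fun s =>
    Module.Finite.iff_fg.mpr (hVfg.pow s)
  rcases eq_or_ne c 0 with h0 | h0
  · have : V = W := by rw [hV, h0]; simp
    rw [this]
    exact Nat.le_add_right _ _
  · induction t with
    | zero =>
      rw [zero_add, pow_one, pow_one, pow_zero]
      calc finrank K ↥(W ⊔ Submodule.span K {c})
          ≤ finrank K W + finrank K ↥(Submodule.span K {c}) := by
            have := fdW 1
            rw [pow_one] at this
            exact Submodule.finrank_add_le_finrank_add_finrank _ _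
        _ ≤ finrank K W + finrank K ↥(1 : Submodule K A) := by
            have h2 := finrank_span_mul (K := K) c h0 (1 : Submodule K A)
            rw [mul_one] at h2
            rw [h2]
    | succ t ih =>
      have hfc : FiniteDimensional K ↥(Submodule.span K {c} * V ^ (t + 1)) :=
        Module.Finite.iff_fg.mpr ((Submodule.fg_span_singleton c).mul (hVfg.pow _))
      have := fdW (t + 1 + 1)
      have hsum := Submodule.finrank_sup_add_finrank_inf_eq (W ^ (t + 1 + 1))
        (Submodule.span K {c} * V ^ (t + 1))
      rw [← sup_pow_succ, ← hV, finrank_span_mul c h0] at hsum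
      have hsub : Submodule.span K {c} * W ^ t ≤
          W ^ (t + 1 + 1) ⊓ (Submodule.span K {c} * V ^ (t + 1)) := by
        apply le_inf
        · have h3 : Submodule.span K {c} ≤ W * W := by
            rw [Submodule.span_singleton_le_iff_mem, hc]
            exact Submodule.mul_mem_mul hu hv
          calc Submodule.span K {c} * W ^ t ≤ W * W * W ^ t := mul_le_mul' h3 le_rfl
            _ = W ^ (t + 1 + 1) := by ring
        · apply mul_le_mul' le_rfl
          calc W ^ t ≤ V ^ t := pow_le_pow_left' le_sup_left _
            _ ≤ V ^ (t + 1) := pow_mono_of_one_mem V (le_sup_left (a := W) h1) (Nat.le_succ t)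
      have hfi : FiniteDimensional K
          ↥(W ^ (t + 1 + 1) ⊓ (Submodule.span K {c} * V ^ (t + 1))) :=
        Submodule.finiteDimensional_inf_left _ _
      have h4 := Submodule.finrank_mono hsub
      rw [finrank_span_mul c h0] at h4
      omega

end Pool.Agent.H546R2.SL
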