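import Pool.Agent.H546R2.SL.A4

set_option autoImplicit false
set_option linter.unusedSectionVars false

open Module MvPolynomial

namespace Pool.Agent.H546R2.SL

variable {ι : Type*} [Fintype ι] {K : Type*} [Field K]

/-- separating polynomials -/
lemma exists_separating (P : Finset (ι → K)) (x : ι → K) :
    ∃ p : MvPolynomial ι K, eval x p = 1 ∧ ∀ x' ∈ P, x' ≠ x → eval x' p = 0 := by
  classical
  induction P using Finset.induction_on with
  | empty => exact ⟨1, by simp, fun x' h => absurd h (Finset.notMem_empty x')⟩
  | insert y P _ ih =>
    obtain ⟨p, hp1, hp2⟩ := ih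
    by_cases hy : y = x
    · refine ⟨p, hp1, ?_⟩
      intro x' hx' hne
      rcases Finset.mem_insert.mp hx' with h | h
      · exact absurd (h.trans hy) hne
      · exact hp2 x' h hne
    · obtain ⟨i, hi⟩ : ∃ i, y i ≠ x i := by
        by_contra hcon
        push Not at hcon
        exact hy (funext hcon)
      have hne : x i - y i ≠ 0 := sub_ne_zero.mpr (fun h => hi h.symm)
      refine ⟨p * (C ((x i - y i)⁻¹) * (X i - C (y i))), ?_, ?_⟩
      · simp [hp1, hne]
      · intro x' hx' hne'
        rcases Finset.mem_insert.mp hx' with h | h
        · rw [h]; simp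
        · simp [hp2 x' h hne']

/-- reduction modulo polynomials with prescribed leading forms -/
lemma reduce {V : Type*} (y G : V → MvPolynomial ι K) (e : ℕ) (he : 0 < e)
    (hy : ∀ v, (y v).IsHomogeneous e) (hG : ∀ v, (G v - y v).totalDegree < e)
    (M : ℕ) (hM : ∀ d ≥ M, ∀ p : MvPolynomial ι K,
      p.IsHomogeneous d → p ∈ Ideal.span (Set.range y)) :
    ∀ d, ∀ p : MvPolynomial ι K, p.totalDegree ≤ d →
      ∃ q : MvPolynomial ι K, q.totalDegree ≤ M + e ∧ p - q ∈ Ideal.span (Set.range G) := by
  intro d
  induction d using Nat.strong_induction_on with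
  | _ d ih =>
    intro p hp
    by_cases hd : d ≤ M + e
    · exact ⟨p, hp.trans hd, by rw [sub_self]; exact Ideal.zero_mem _⟩
    · push Not at hd
      obtain ⟨c, hc, hpc⟩ := homog_repr y e hy d (by omega) _
        (homogeneousComponent_isHomogeneous d p)
        (hM d (by omega) _ (homogeneousComponent_isHomogeneous d p))
      set s : MvPolynomial ι K := c.sum fun v a => a * G v with hs
      have hsI : s ∈ Ideal.span (Set.range G) := by
        apply Ideal.sum_mem
        intro v _
        exact Ideal.mul_mem_left _ _ (Ideal.subset_span ⟨v, rfl⟩)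
      have hdeg : (p - s).totalDegree ≤ d - 1 := by
        have h1 : p - s = (p - homogeneousComponent d p) -
            c.sum (fun v a => a * (G v - y v)) := by
          rw [hs]
          have h2 : (c.sum fun v a => a * (G v - y v)) =
              (c.sum fun v a => a * G v) - c.sum fun v a => a * y v := by
            rw [Finsupp.sum, Finsupp.sum, Finsupp.sum, ← Finset.sum_sub_distrib]
            apply Finset.sum_congr rfl
            intro v _
            ring
          rw [h2, ← hpc]; ring
        rw [h1]
        refine (totalDegree_sub _ _).trans (max_le ?_ ?_)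
        · rw [totalDegree, Finset.sup_le_iff]
          intro m hm
          rw [MvPolynomial.mem_support_iff, coeff_sub, coeff_homogeneousComponent] at hm
          have hmd : m.degree ≠ d := by
            intro hcon
            rw [if_pos hcon, sub_self] at hm
            exact hm rfl
          rw [if_neg hmd, sub_zero] at hm
          have h5 := le_totalDegree (MvPolynomial.mem_support_iff.mpr hm)
          have h6 : (m.sum fun _ e => e) = m.degree := rfl
          rw [h6] at h5 ⊢
          omega
        · apply totalDegree_finsetSum_le
          intro v _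
          refine (totalDegree_mul _ _).trans ?_
          have h3 := (hc v).totalDegree_le
          have h4 := hG v
          omega
      obtain ⟨q, hq1, hq2⟩ := ih (d - 1) (by omega) (p - s) hdeg
      refine ⟨q, hq1, ?_⟩
      have : p - q = (p - s - q) + s := by ring
      rw [this]
      exact Ideal.add_mem _ hq2 hsI

/-- uniform bound for the number of common zeros -/
lemma card_zeros_le {V : Type*} (y G : V → MvPolynomial ι K) (e : ℕ) (he : 0 < e)
    (hy : ∀ v, (y v).IsHomogeneous e) (hG : ∀ v, (G v - y v).totalDegree < e)
    (M : ℕ) (hM : ∀ d ≥ M, ∀ p : MvPolynomial ι K,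
      p.IsHomogeneous d → p ∈ Ideal.span (Set.range y))
    (P : Finset (ι → K)) (hP : ∀ x ∈ P, ∀ v, eval x (G v) = 0) :
    P.card ≤ Nm ι (M + e) := by
  classical
  set W := restrictTotalDegree ι K (M + e) with hW
  let f : W →ₗ[K] (P → K) :=
    { toFun := fun p x => eval x.1 p.1
      map_add' := by intro p q; funext x; simp
      map_smul' := by intro c p; funext x; simp }
  have hf : Function.Surjective f := by
    rw [← LinearMap.range_eq_top, ← top_le_iff]
    intro g _
    -- choose reduced separating polynomials
    have hsep : ∀ x : P, ∃ q : W, ∀ x' : P, eval x'.1 q.1 = if x' = x then 1 else 0 := by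
      intro x
      obtain ⟨p, hp1, hp2⟩ := exists_separating P x.1
      obtain ⟨q, hq1, hq2⟩ := reduce y G e he hy hG M hM p.totalDegree p le_rfl
      refine ⟨⟨q, by rw [hW, mem_restrictTotalDegree]; exact hq1⟩, ?_⟩
      intro x'
      have hzero : eval x'.1 (p - q) = 0 := by
        have hle : Ideal.span (Set.range G) ≤ RingHom.ker (eval x'.1) := by
          rw [Ideal.span_le]
          rintro _ ⟨v, rfl⟩
          exact hP x'.1 x'.2 v
        exact hle hq2
      rw [map_sub, sub_eq_zero] at hzero
      simp only
      rw [← hzero]
      by_cases h : x' = x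
      · rw [if_pos h, h]; exact hp1
      · rw [if_neg h]
        exact hp2 x'.1 x'.2 (fun hh => h (Subtype.ext hh))
    choose q hq using hsep
    refine ⟨∑ x : P, g x • q x, ?_⟩
    rw [map_sum]
    funext x'
    rw [Finset.sum_apply]
    simp only [map_smul, Pi.smul_apply, smul_eq_mul]
    have : ∀ x : P, g x * f (q x) x' = if x' = x then g x else 0 := by
      intro x
      have h1 : f (q x) x' = eval x'.1 (q x).1 := rfl
      rw [h1, hq x x']
      split_ifs <;> simp
    simp_rw [this]
    rw [Finset.sum_ite_eq]
    simp
  have h1 := LinearMap.finrank_le_finrank_of_surjective (f := f) hf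
  rw [Module.finrank_fintype_fun_eq_card, Fintype.card_coe, hW, finrank_restrict] at h1
  exact h1

end Pool.Agent.H546R2.SL
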