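import Pool.Agent.H546R2.SL.A8
import Pool.Agent.H546R2.SL.A9

set_option autoImplicit false
set_option linter.unusedSectionVars false

open MvPolynomial Finset

namespace Pool.Agent.H546R2.SL

/-- elementary symmetric sums over a subset -/
def es {α R : Type*} [DecidableEq α] [CommRing R] (a : α → R) (S : Finset α) (r : ℕ) : R :=
  ∑ J ∈ S.powersetCard r, ∏ c ∈ J, a c

section es

variable {α R : Type*} [DecidableEq α] [CommRing R]

lemma es_zero (a : α → R) (S : Finset α) : es a S 0 = 1 := by
  unfold es; simp

lemma es_succ (a : α → R) (S : Finset α) (j : α) (hj : j ∈ S) (r : ℕ) :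
    es a S (r + 1) = es a (S.erase j) (r + 1) + a j * es a (S.erase j) r := by
  unfold es
  conv_lhs => rw [← Finset.insert_erase hj]
  rw [Finset.powersetCard_succ_insert (Finset.notMem_erase j S), Finset.sum_union]
  · congr 1
    rw [Finset.sum_image, Finset.mul_sum]
    · apply Finset.sum_congr rfl
      intro J hJ
      rw [Finset.prod_insert]
      intro h
      exact Finset.notMem_erase j S ((Finset.mem_powersetCard.mp hJ).1 h)
    · intro J hJ J' hJ' h
      have h1 : j ∉ J := fun h' => Finset.notMem_erase j S ((Finset.mem_powersetCard.mp hJ).1 h')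
      have h2 : j ∉ J' := fun h' => Finset.notMem_erase j S ((Finset.mem_powersetCard.mp hJ').1 h')
      rw [← Finset.erase_insert h1, ← Finset.erase_insert h2, h]
  · rw [Finset.disjoint_left]
    intro J hJ hJ'
    rw [Finset.mem_image] at hJ'
    obtain ⟨J', _, rfl⟩ := hJ'
    exact Finset.notMem_erase j S ((Finset.mem_powersetCard.mp hJ).1 (Finset.mem_insert_self j J'))

lemma sum_es_erase (a : α → R) (S : Finset α) (r : ℕ) :
    ∑ j ∈ S, es a (S.erase j) r = ((S.card - r : ℕ) : R) * es a S r := by
  unfold es
  have h1 : ∀ j ∈ S, ∑ J ∈ (S.erase j).powersetCard r, ∏ c ∈ J, a c =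
      ∑ J ∈ S.powersetCard r, if j ∉ J then ∏ c ∈ J, a c else 0 := by
    intro j hj
    rw [← Finset.sum_filter]
    apply Finset.sum_congr _ (fun _ _ => rfl)
    ext J
    rw [Finset.mem_filter, Finset.mem_powersetCard, Finset.mem_powersetCard]
    constructor
    · rintro ⟨h, hc⟩
      exact ⟨⟨h.trans (Finset.erase_subset _ _), hc⟩, fun hh => Finset.notMem_erase j S (h hh)⟩
    · rintro ⟨⟨h, hc⟩, hj'⟩
      exact ⟨fun c hc' => Finset.mem_erase.mpr ⟨fun hh => hj' (hh ▸ hc'), h hc'⟩, hc⟩
  rw [Finset.sum_congr rfl h1, Finset.sum_comm, Finset.mul_sum]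
  apply Finset.sum_congr rfl
  intro J hJ
  rw [Finset.mem_powersetCard] at hJ
  rw [← Finset.sum_filter, Finset.sum_const, nsmul_eq_mul]
  congr 2
  have : S.filter (fun j => j ∉ J) = S \ J := by
    ext c; simp [Finset.mem_sdiff]
  rw [this, Finset.card_sdiff_of_subset hJ.1, hJ.2]

end es

/-- a common zero of all the derivatives of the elementary symmetric polynomial has small
support -/
lemma support_small {K : Type*} [Field K] [CharZero K] {w k : ℕ} (hk : 0 < k) (a : Fin w → K)
    (h : ∀ j, es a (Finset.univ.erase j) (k - 1) = 0) (S : Finset (Fin w))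
    (hS : ∀ j, j ∈ S ↔ a j ≠ 0) : S.card < k := by
  classical
  by_contra hcon
  push Not at hcon
  have hred : ∀ j, ∀ r, es a (Finset.univ.erase j) r = es a (S.erase j) r := by
    intro j r
    unfold es
    symm
    apply Finset.sum_subset_zero_on_sdiff
    · exact Finset.powersetCard_mono (Finset.erase_subset_erase j (Finset.subset_univ S))
    · intro J hJ
      rw [Finset.mem_sdiff, Finset.mem_powersetCard, Finset.mem_powersetCard] at hJ
      have : ∃ c ∈ J, c ∉ S := by
        by_contra hc
        push Not at hc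
        apply hJ.2
        exact ⟨fun c hc' => Finset.mem_erase.mpr ⟨(Finset.mem_erase.mp (hJ.1.1 hc')).1, hc c hc'⟩,
          hJ.1.2⟩
      obtain ⟨c, hcJ, hcS⟩ := this
      apply Finset.prod_eq_zero hcJ
      by_contra hne
      exact hcS ((hS c).mpr hne)
    · intro J _; rfl
  have hne : ∀ j ∈ S, a j ≠ 0 := fun j hj => (hS j).mp hj
  have hchain : ∀ t, t ≤ k - 1 → ∀ j ∈ S, es a (S.erase j) (k - 1 - t) = 0 := by
    intro t
    induction t with
    | zero => intro _ j _; rw [← hred]; exact h j
    | succ t ih =>
      intro ht j hj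
      have h1 := sum_es_erase a S (k - 1 - t)
      rw [Finset.sum_eq_zero (fun j hj => ih (by omega) j hj)] at h1
      have h2 : ((S.card - (k - 1 - t) : ℕ) : K) ≠ 0 := by
        rw [Nat.cast_ne_zero]; omega
      have h3 : es a S (k - 1 - t) = 0 := by
        rcases mul_eq_zero.mp h1.symm with h4 | h4
        · exact absurd h4 h2
        · exact h4
      have h5 : k - 1 - t = (k - 1 - (t + 1)) + 1 := by omega
      have h6 := ih (by omega) j hj
      rw [h5] at h3 h6
      rw [es_succ a S j hj, h6, zero_add] at h3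
      exact (mul_eq_zero.mp h3).resolve_left (hne j hj)
  have hSne : S.Nonempty := Finset.card_pos.mp (by omega)
  obtain ⟨j, hj⟩ := hSne
  have := hchain (k - 1) le_rfl j hj
  rw [Nat.sub_self, es_zero] at this
  exact one_ne_zero this

/-- evaluation code: a vector of values of a polynomial of degree `< k` at `w` points with at most
`w - k` nonzero entries vanishes -/
lemma vandermonde_zero {K : Type*} [Field K] [CharZero K] {k : ℕ} (z : Fin k → K) (s : Finset ℕ)
    (hs : k ≤ s.card) (h : ∀ t ∈ s, ∑ l : Fin k, (t : K) ^ (l : ℕ) * z l = 0) : z = 0 := by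
  classical
  set p : Polynomial K := ∑ l : Fin k, Polynomial.C (z l) * Polynomial.X ^ (l : ℕ) with hp
  have hdeg : p.degree < (k : ℕ) := by
    rw [hp]
    apply (Polynomial.degree_sum_le _ _).trans_lt
    rw [Finset.sup_lt_iff (by exact_mod_cast WithBot.bot_lt_coe k)]
    intro l _
    exact (Polynomial.degree_C_mul_X_pow_le _ _).trans_lt (by exact_mod_cast l.2)
  have hroots : ∀ t ∈ s, p.eval (t : K) = 0 := by
    intro t ht
    rw [hp, Polynomial.eval_finsetSum]
    simp only [Polynomial.eval_mul, Polynomial.eval_C, Polynomial.eval_pow, Polynomial.eval_X]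
    rw [← h t ht]
    apply Finset.sum_congr rfl
    intro l _
    ring
  have hp0 : p = 0 := by
    apply Polynomial.eq_zero_of_degree_lt_of_eval_finset_eq_zero (s.image (fun t : ℕ => (t : K)))
    · rw [Finset.card_image_of_injective _ Nat.cast_injective]
      exact hdeg.trans_le (by exact_mod_cast hs)
    · intro x hx
      obtain ⟨t, ht, rfl⟩ := Finset.mem_image.mp hx
      exact hroots t ht
  funext l
  have h1 := congrArg (fun q => Polynomial.coeff q (l : ℕ)) hp0
  simp only [hp, Polynomial.finsetSum_coeff, Polynomial.coeff_C_mul_X_pow,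
    Polynomial.coeff_zero] at h1
  rw [Finset.sum_eq_single l] at h1
  · simpa using h1
  · intro l' _ hne
    rw [if_neg]
    intro hcon
    exact hne (Fin.ext hcon.symm)
  · intro hl; exact absurd (Finset.mem_univ l) hl

end Pool.Agent.H546R2.SL
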