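import Pool.Agent.H546R2.SL.A10

set_option autoImplicit false
set_option linter.unusedSectionVars false

open MvPolynomial Finset

namespace Pool.Agent.H546R2.SL

variable {K : Type*} [Field K]

/-- the codeword of `z`: values of the polynomial with coefficients `z` -/
def avec {k w : ℕ} (z : Fin k → K) (j : Fin w) : K := ∑ l : Fin k, ((j : ℕ) : K) ^ (l : ℕ) * z l

/-- the corresponding linear forms -/
noncomputable def Alin (K : Type*) [Field K] (k : ℕ) {w : ℕ} (j : Fin w) :
    MvPolynomial (Fin k) K :=
  ∑ l : Fin k, C (((j : ℕ) : K) ^ (l : ℕ)) * X l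

lemma eval_Alin {k w : ℕ} (z : Fin k → K) (j : Fin w) : eval z (Alin K k j) = avec z j := by
  unfold Alin avec
  rw [map_sum]
  simp

lemma Alin_homog {k w : ℕ} (j : Fin w) : (Alin K k j).IsHomogeneous 1 := by
  unfold Alin
  apply IsHomogeneous.sum
  intro l _
  exact isHomogeneous_C_mul_X _ _

lemma prod_Alin_homog {k w : ℕ} (J : Finset (Fin w)) :
    (∏ c ∈ J, Alin K k c).IsHomogeneous J.card := by
  have := IsHomogeneous.prod J (fun c => Alin K k c) (fun _ => 1) (fun c _ => Alin_homog c)
  simpa using this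

/-- leading forms -/
noncomputable def Yp (K : Type*) [Field K] (k : ℕ) {w : ℕ} (j : Fin w) :
    MvPolynomial (Fin k) K :=
  C ((-1) ^ (k - 1) * ((k - 1).factorial : K)) *
    es (Alin K k) ((Finset.univ : Finset (Fin w)).erase j) (k - 1)

/-- the equations for one row -/
noncomputable def Gp {k w : ℕ} (Cf : Finset (Fin w) → K) (j : Fin w) : MvPolynomial (Fin k) K :=
  ∑ r ∈ Finset.range k, C ((-1) ^ r * (r.factorial : K)) *
    ∑ J ∈ (Finset.univ.erase j).powersetCard r, (∏ c ∈ J, Alin K k c) * C (Cf (insert j J))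

lemma Yp_homog {k w : ℕ} (j : Fin w) : (Yp K k j).IsHomogeneous (k - 1) := by
  unfold Yp es
  apply IsHomogeneous.C_mul
  apply IsHomogeneous.sum
  intro J hJ
  have := prod_Alin_homog (K := K) (k := k) J
  rwa [(Finset.mem_powersetCard.mp hJ).2] at this

lemma Gp_sub_Yp {k w : ℕ} (hk : 2 ≤ k) (Cf : Finset (Fin w) → K)
    (hCf : ∀ T : Finset (Fin w), T.card = k → Cf T = 1) (j : Fin w) :
    (Gp (k := k) Cf j - Yp K k j).totalDegree < k - 1 := by
  classical
  have h1 : Gp (k := k) Cf j - Yp K k j =
      ∑ r ∈ Finset.range (k - 1), C ((-1) ^ r * (r.factorial : K)) *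
        ∑ J ∈ (Finset.univ.erase j).powersetCard r,
          (∏ c ∈ J, Alin K k c) * C (Cf (insert j J)) := by
    unfold Gp
    have h2 : Finset.range k = Finset.range ((k - 1) + 1) := by
      rw [Nat.sub_add_cancel (by omega)]
    rw [h2, Finset.sum_range_succ, add_sub_assoc]
    have h3 : C ((-1) ^ (k - 1) * ((k - 1).factorial : K)) *
        ∑ J ∈ (Finset.univ.erase j).powersetCard (k - 1),
          (∏ c ∈ J, Alin K k c) * C (Cf (insert j J)) = Yp K k j := by
      unfold Yp es
      congr 1
      apply Finset.sum_congr rfl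
      intro J hJ
      rw [Finset.mem_powersetCard] at hJ
      rw [hCf, C_1, mul_one]
      rw [Finset.card_insert_of_notMem, hJ.2]
      · omega
      · intro h; exact Finset.notMem_erase j _ (hJ.1 h)
    rw [h3, sub_self, add_zero]
  rw [h1]
  have h4 : (∑ r ∈ Finset.range (k - 1), C ((-1) ^ r * (r.factorial : K)) *
        ∑ J ∈ (Finset.univ.erase j).powersetCard r,
          (∏ c ∈ J, Alin K k c) * C (Cf (insert j J))).totalDegree ≤ k - 2 := by
    apply totalDegree_finsetSum_le
    intro r hr
    rw [Finset.mem_range] at hr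
    refine (totalDegree_mul _ _).trans ?_
    rw [totalDegree_C, zero_add]
    apply totalDegree_finsetSum_le
    intro J hJ
    refine (totalDegree_mul _ _).trans ?_
    rw [totalDegree_C, add_zero]
    have := (prod_Alin_homog (K := K) (k := k) J).totalDegree_le
    rw [(Finset.mem_powersetCard.mp hJ).2] at this
    omega
  omega

lemma Yp_zero [CharZero K] {k : ℕ} (hk : 2 ≤ k) (z : Fin k → K)
    (h : ∀ j : Fin (2 * k), eval z (Yp K k j) = 0) : z = 0 := by
  classical
  set S : Finset (Fin (2 * k)) := Finset.univ.filter fun j => ¬ (avec z j = 0) with hS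
  have hSm : ∀ j, j ∈ S ↔ avec z j ≠ 0 := by intro j; simp [hS]
  have h1 : ∀ j : Fin (2 * k), es (fun j : Fin (2 * k) => avec z j) (Finset.univ.erase j) (k - 1) = 0 := by
    intro j
    have h2 := h j
    unfold Yp at h2
    rw [map_mul, eval_C] at h2
    have h3 : ((-1) ^ (k - 1) * ((k - 1).factorial : K)) ≠ 0 := by
      apply mul_ne_zero
      · exact pow_ne_zero _ (by norm_num)
      · exact_mod_cast (Nat.factorial_pos _).ne'
    have h4 := (mul_eq_zero.mp h2).resolve_left h3
    unfold es at h4 ⊢
    rw [map_sum] at h4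
    rw [← h4]
    apply Finset.sum_congr rfl
    intro J _
    rw [map_prod]
    apply Finset.prod_congr rfl
    intro c _
    rw [eval_Alin]
  have hcard := support_small (by omega) (fun j : Fin (2 * k) => avec z j) h1 S hSm
  apply vandermonde_zero z ((Finset.univ \ S).map Fin.valEmbedding)
  · rw [Finset.card_map, Finset.card_sdiff_of_subset (Finset.subset_univ S), Finset.card_univ,
      Fintype.card_fin]
    omega
  · intro t ht
    rw [Finset.mem_map] at ht
    obtain ⟨j, hj, rfl⟩ := ht
    rw [Finset.mem_sdiff, hSm] at hj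
    push Not at hj
    exact hj.2

/-- uniform finiteness of the row values -/
lemma rows_finite (K : Type*) [Field K] [IsAlgClosed K] [CharZero K] (k : ℕ) (hk : 2 ≤ k) :
    ∃ E₀ : ℕ, ∀ Cf : Finset (Fin (2 * k)) → K,
      (∀ T : Finset (Fin (2 * k)), T.card = k → Cf T = 1) →
      ∀ P : Finset (Fin k → K), (∀ z ∈ P, ∀ j : Fin (2 * k),
        ∑ r ∈ Finset.range k, (-1) ^ r * ((r.factorial : K) *
          ∑ J ∈ (Finset.univ.erase j).powersetCard r, (∏ c ∈ J, avec z c) * Cf (insert j J)) = 0) →
      P.card ≤ E₀ := by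
  classical
  obtain ⟨M, hM⟩ := exists_degree_bound (fun j : Fin (2 * k) => Yp K k j) (Yp_zero hk)
  refine ⟨Nm (Fin k) (M + (k - 1)), ?_⟩
  intro Cf hCf P hP
  apply card_zeros_le (fun j : Fin (2 * k) => Yp K k j) (fun j => Gp (k := k) Cf j) (k - 1)
    (by omega) (fun j => Yp_homog j) (fun j => Gp_sub_Yp hk Cf hCf j) M hM P
  intro z hz j
  rw [← hP z hz j]
  unfold Gp
  rw [map_sum]
  apply Finset.sum_congr rfl
  intro r _
  rw [map_mul, eval_C, mul_assoc, map_sum]
  congr 2
  apply Finset.sum_congr rfl
  intro J _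
  rw [map_mul, eval_C, map_prod]
  congr 1
  apply Finset.prod_congr rfl
  intro c _
  rw [eval_Alin]

/-- group of a row -/
def grp (i : ℕ) : ℕ := i / 2

/-- scaling of a row -/
def tau (n₁ i : ℕ) : ℕ := if n₁ ≤ i / 2 then 0 else if i % 2 = 0 then 1 else i / 2 + 2

/-- block analysis: a critical point in the code is zero -/
lemma block_zero [CharZero K] {k n n₁ L E₀ : ℕ} (hk : 2 ≤ k) (hn : 2 * n₁ ≤ n)
    (hL : L + E₀ ^ 2 ≤ n₁)
    (hE : ∀ Cf : Finset (Fin (2 * k)) → K,
      (∀ T : Finset (Fin (2 * k)), T.card = k → Cf T = 1) →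
      ∀ P : Finset (Fin k → K), (∀ z ∈ P, ∀ j : Fin (2 * k),
        ∑ r ∈ Finset.range k, (-1) ^ r * ((r.factorial : K) *
          ∑ J ∈ (Finset.univ.erase j).powersetCard r, (∏ c ∈ J, avec z c) * Cf (insert j J)) = 0) →
      P.card ≤ E₀)
    (ξ : Fin L → Fin k → K) (a : Fin n → Fin (2 * k) → K)
    (ha : ∀ i j, a i j = avec (fun r => (tau n₁ i : K) * ∑ l : Fin L,
      ((grp i : ℕ) : K) ^ (l : ℕ) * ξ l r) j)
    (hcrit : ∀ i j, phi k (X j * ∏ i' ∈ Finset.univ.erase i, (1 + lin (a i'))) = 0) :
    ξ = 0 := by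
  classical
  set F := ∏ i', (1 + lin (a i')) with hF
  have hF1 : eps ∅ F = 1 := by
    have : ∀ I : Finset (Fin n), eps ∅ (∏ i' ∈ I, (1 + lin (a i'))) = 1 := by
      intro I
      induction I using Finset.induction_on with
      | empty => rw [Finset.prod_empty, eps_one, if_pos rfl]
      | insert i I hi ih =>
        rw [Finset.prod_insert hi, add_mul, one_mul, eps_add, ih, eps_lin_mul, Finset.sum_empty,
          add_zero]
    exact this Finset.univ
  -- group vectors
  set u : ℕ → Fin k → K := fun g r => ∑ l : Fin L, (g : K) ^ (l : ℕ) * ξ l r with hu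
  set pt : Fin n → Fin k → K := fun i r => (tau n₁ i : K) * u (grp i) r with hpt
  have hai : ∀ i, a i = fun j => avec (pt i) j := by
    intro i; funext j; rw [ha i j]
  set P : Finset (Fin k → K) := Finset.univ.image pt with hP
  have hPcard : P.card ≤ E₀ := by
    apply hE (cof k F) (fun T hT => cof_card k F hF1 T hT) P
    intro z hz j
    rw [hP, Finset.mem_image] at hz
    obtain ⟨i, _, rfl⟩ := hz
    have h1 := row_identity k (by omega) a i j
    rw [hcrit i j, ← hF] at h1
    rw [h1]
    apply Finset.sum_congr rfl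
    intro r _
    rw [phi_expand, hai i]
  -- few nonzero groups
  set N := (Finset.range n₁).filter fun g => ¬ (u g = 0) with hN
  have hNcard : N.card ≤ E₀ ^ 2 := by
    have h1 : N.card ≤ (P ×ˢ P).card := by
      apply Finset.card_le_card_of_injOn (fun g => (u g, fun r => ((g + 2 : ℕ) : K) * u g r))
      · intro g hg
        rw [Finset.mem_coe, hN, Finset.mem_filter, Finset.mem_range] at hg
        rw [Finset.mem_coe, Finset.mem_product]
        constructor
        · rw [hP, Finset.mem_image]
          refine ⟨⟨2 * g, by omega⟩, Finset.mem_univ _, ?_⟩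
          funext r
          have h2 : grp (2 * g) = g := by unfold grp; omega
          have h3 : tau n₁ (2 * g) = 1 := by
            unfold tau; rw [if_neg (by omega), if_pos (by omega)]
          simp only [hpt, h2, h3]
          simp
        · rw [hP, Finset.mem_image]
          refine ⟨⟨2 * g + 1, by omega⟩, Finset.mem_univ _, ?_⟩
          funext r
          have h2 : grp (2 * g + 1) = g := by unfold grp; omega
          have h3 : tau n₁ (2 * g + 1) = g + 2 := by
            unfold tau; rw [if_neg (by omega), if_neg (by omega)]; omega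
          simp only [hpt, h2, h3]
      · intro g hg g' hg' hgg
        rw [Finset.mem_coe, hN, Finset.mem_filter] at hg
        rw [Prod.mk.injEq] at hgg
        obtain ⟨h1, h2⟩ := hgg
        obtain ⟨r, hr⟩ : ∃ r, u g r ≠ 0 := by
          by_contra hcon
          push Not at hcon
          exact hg.2 (funext hcon)
        have h3 := congrFun h2 r
        rw [← h1] at h3
        have h4 := mul_right_cancel₀ hr h3
        have h5 : g + 2 = g' + 2 := by exact_mod_cast h4
        omega
    rw [Finset.card_product] at h1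
    calc N.card ≤ P.card * P.card := h1
      _ ≤ E₀ * E₀ := Nat.mul_le_mul hPcard hPcard
      _ = E₀ ^ 2 := by ring
  -- the code
  have hzero : ∀ r : Fin k, (fun l : Fin L => ξ l r) = 0 := by
    intro r
    apply vandermonde_zero (fun l : Fin L => ξ l r) (Finset.range n₁ \ N)
    · have hNle : N ⊆ Finset.range n₁ := Finset.filter_subset _ _
      rw [Finset.card_sdiff_of_subset hNle, Finset.card_range]
      omega
    · intro g hg
      rw [Finset.mem_sdiff, hN, Finset.mem_filter] at hg
      have h1 : u g = 0 := by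
        by_contra hne
        exact hg.2 ⟨hg.1, hne⟩
      have h2 := congrFun h1 r
      exact h2
  funext l r
  exact congrFun (hzero r) l

end Pool.Agent.H546R2.SL
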