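import Pool.Agent.H546R2.SL.A11

set_option autoImplicit false
set_option linter.unusedSectionVars false

open MvPolynomial Finset

namespace Pool.Agent.H546R2.SL

/-- the generic permanent -/
noncomputable def perN (K : Type*) [CommRing K] (N : ℕ) : MvPolynomial (Fin N × Fin N) K :=
  Matrix.permanent (Matrix.of fun i j : Fin N => (X (i, j) : MvPolynomial (Fin N × Fin N) K))

lemma pderiv_prod_zero {K σ τ : Type*} [CommRing K] (v : σ) (I : Finset τ)
    (f : τ → MvPolynomial σ K) (hf : ∀ i ∈ I, pderiv v (f i) = 0) :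
    pderiv v (∏ i ∈ I, f i) = 0 := by
  classical
  induction I using Finset.induction_on with
  | empty => rw [Finset.prod_empty, pderiv_one]
  | insert i I hi ih =>
    rw [Finset.prod_insert hi, Derivation.leibniz, hf i (Finset.mem_insert_self i I),
      ih (fun j hj => hf j (Finset.mem_insert_of_mem hj)), smul_zero, smul_zero, add_zero]

/-- the derivative of the generic permanent replaces a row by a unit vector -/
lemma pderiv_perN (K : Type*) [CommRing K] (N : ℕ) (i₀ j₀ : Fin N) :
    pderiv (i₀, j₀) (perN K N) =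
      Matrix.permanent (Matrix.of fun i j : Fin N => (if i = i₀ then (if j = j₀ then 1 else 0)
        else X (i, j) : MvPolynomial (Fin N × Fin N) K)) := by
  classical
  unfold perN Matrix.permanent
  rw [map_sum]
  apply Finset.sum_congr rfl
  intro σ _
  simp only [Matrix.of_apply]
  have h1 : ∀ f : Fin N → MvPolynomial (Fin N × Fin N) K,
      ∏ i, f i = f (σ.symm i₀) * ∏ i ∈ Finset.univ.erase (σ.symm i₀), f i := fun f =>
    (Finset.mul_prod_erase _ f (Finset.mem_univ _)).symm
  rw [h1, h1 (fun i => if σ i = i₀ then _ else _)]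
  have h2 : pderiv (i₀, j₀) (∏ i ∈ Finset.univ.erase (σ.symm i₀),
      (X (σ i, i) : MvPolynomial (Fin N × Fin N) K)) = 0 := by
    apply pderiv_prod_zero
    intro i hi
    rw [pderiv_X_of_ne]
    intro h
    rw [Prod.mk.injEq] at h
    apply (Finset.mem_erase.mp hi).1
    rw [← h.1, Equiv.symm_apply_apply]
  rw [Derivation.leibniz, h2, smul_zero, zero_add, smul_eq_mul]
  have h3 : ∏ i ∈ Finset.univ.erase (σ.symm i₀), (if σ i = i₀ then (if i = j₀ then 1 else 0)
        else X (σ i, i) : MvPolynomial (Fin N × Fin N) K) =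
      ∏ i ∈ Finset.univ.erase (σ.symm i₀), X (σ i, i) := by
    apply Finset.prod_congr rfl
    intro i hi
    rw [if_neg]
    intro h
    apply (Finset.mem_erase.mp hi).1
    rw [← h, Equiv.symm_apply_apply]
  rw [h3, mul_comm]
  congr 1
  rw [Equiv.apply_symm_apply, if_pos rfl]
  by_cases h : σ.symm i₀ = j₀
  · rw [if_pos h, h, pderiv_X_self]
  · rw [if_neg h, pderiv_X_of_ne]
    intro hh
    rw [Prod.mk.injEq] at hh
    exact h hh.2

lemma map_permanent {R S : Type*} [CommRing R] [CommRing S] (f : R →+* S) {N : ℕ}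
    (M : Fin N → Fin N → R) :
    f (Matrix.permanent (Matrix.of M)) = Matrix.permanent (Matrix.of fun i j => f (M i j)) := by
  unfold Matrix.permanent
  rw [map_sum]
  apply Finset.sum_congr rfl
  intro σ _
  rw [map_prod]
  rfl

/-- substituting a matrix in a partial derivative of the generic permanent -/
lemma aeval_pderiv {K A : Type*} [CommRing K] [CommRing A] [Algebra K A]
    {ρ γ : Type*} [Fintype ρ] [DecidableEq ρ] [Fintype γ] [DecidableEq γ] {N : ℕ}
    (M : ρ → γ → A) (er : Fin N ≃ ρ) (ec : Fin N ≃ γ) (i₀ j₀ : Fin N) :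
    aeval (fun p : Fin N × Fin N => M (er p.1) (ec p.2)) (pderiv (i₀, j₀) (perN K N)) =
      eps Finset.univ (∏ r, lin (if r = er i₀ then Pi.single (ec j₀) 1 else M r)) := by
  classical
  rw [pderiv_perN]
  have h1 := map_permanent (aeval (R := K) (fun p : Fin N × Fin N => M (er p.1) (ec p.2))).toRingHom
    (fun i j : Fin N => (if i = i₀ then (if j = j₀ then 1 else 0)
        else X (i, j) : MvPolynomial (Fin N × Fin N) K))
  rw [← permanent_eq (fun r => if r = er i₀ then Pi.single (ec j₀) 1 else M r) er ec]
  refine h1.trans ?_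
  congr 1
  ext i j
  simp only [Matrix.of_apply, AlgHom.toRingHom_eq_coe, RingHom.coe_coe]
  by_cases hi : i = i₀
  · have hi2 : er i = er i₀ := by rw [hi]
    rw [if_pos hi, if_pos hi2]
    by_cases hj : j = j₀
    · rw [if_pos hj, hj, Pi.single_eq_same, map_one]
    · rw [if_neg hj, Pi.single_eq_of_ne (fun h => hj (ec.injective h)), map_zero]
  · rw [if_neg hi, if_neg (fun h => hi (er.injective h)), aeval_X]

section Big

variable {R : Type*} [CommRing R] {n k w B : ℕ}

/-- the full matrix -/
def bigM (ζ : Fin k → R) (a : Fin B → Fin n → Fin w → R) : Fin n ⊕ RowV k w B → Col n k w B → R :=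
  Sum.elim (rowR (k := k) (fun _ => 1) a) (rowV ζ)

/-- the constant of the gadget -/
def cst (R : Type*) [CommRing R] (n k w B : ℕ) : R :=
  ((n - k).factorial : R) * (w.factorial : R) ^ B * (((B - 1) * k).factorial : R) *
        (-1) ^ (B - 1)

/-- the value of a partial derivative on the gadget matrix -/
lemma eps_bigM_deriv (ζ : Fin k → R) (hk : 0 < k) (hkn : k ≤ n) (hB : 0 < B)
    (hζ : ∀ t ≤ k, ∑ V : Finset (Fin k), (if V.card = t then ∏ c ∈ V, ζ c else 0) =
      if t = 0 then 1 else if t = k then -1 else 0)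
    (a : Fin B → Fin n → Fin w → R) (b : Fin B) (i : Fin n) (j : Fin w) :
    eps Finset.univ (∏ r, lin (if r = Sum.inl i then Pi.single (Sum.inr (b, Sum.inl j)) 1
      else bigM ζ a r)) =
      cst R n k w B * phi k (X j * ∏ i' ∈ Finset.univ.erase i, (1 + lin (a b i'))) := by
  classical
  have h1 := gadget (n := n) (w := w) ζ (-1) hk hkn hB hζ (fun i' => if i' = i then 0 else 1)
    (fun b' i' => if i' = i then (if b' = b then Pi.single j 1 else 0) else a b' i')
  rw [Fintype.prod_sum_type]
  have h2 : (∏ i' : Fin n, lin (if (Sum.inl i' : Fin n ⊕ RowV k w B) = Sum.inl i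
        then Pi.single (Sum.inr (b, Sum.inl j)) 1 else bigM ζ a (Sum.inl i'))) =
      ∏ i' : Fin n, lin (rowR (k := k) (fun i' => if i' = i then 0 else 1)
        (fun b' i' => if i' = i then (if b' = b then Pi.single j 1 else 0) else a b' i') i') := by
    apply Finset.prod_congr rfl
    intro i' _
    congr 1
    by_cases h : i' = i
    · rw [if_pos (by rw [h])]
      funext c
      rcases c with c | ⟨b', c | c⟩
      · simp [rowR, h]
      · by_cases hb : b' = b
        · subst hb
          by_cases hc : c = j
          · subst hc; simp [rowR, h]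
          · simp [rowR, h, Pi.single_apply, hc]
        · simp [rowR, h, Pi.single_apply, hb]
      · simp [rowR, Pi.single_apply]
    · rw [if_neg (by simpa using h)]
      funext c
      rcases c with c | ⟨b', c | c⟩
      · simp [rowR, h, bigM]
      · simp [rowR, h, bigM]
      · simp [rowR, bigM]
  have h3 : (∏ r : RowV k w B, lin (if (Sum.inr r : Fin n ⊕ RowV k w B) = Sum.inl i
        then Pi.single (Sum.inr (b, Sum.inl j)) 1 else bigM ζ a (Sum.inr r))) =
      ∏ r : RowV k w B, lin (γ := Col n k w B) (rowV ζ r) := by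
    apply Finset.prod_congr rfl
    intro r _
    rw [if_neg (by simp)]
    rfl
  rw [h2, h3, h1, cst]
  congr 1
  rw [Finset.sum_eq_single b]
  · congr 1
    rw [← Finset.mul_prod_erase Finset.univ _ (Finset.mem_univ i)]
    simp only [if_true]
    rw [map_zero, zero_add, ← X_eq_lin]
    congr 1
    apply Finset.prod_congr rfl
    intro i' hi'
    rw [if_neg (Finset.mem_erase.mp hi').1, if_neg (Finset.mem_erase.mp hi').1, map_one]
  · intro b' _ hb'
    rw [Finset.prod_eq_zero (Finset.mem_univ i)]
    · unfold phi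
      apply Finset.sum_eq_zero
      intro S _
      exact coeff_zero _
    · simp only [if_true, if_neg hb', map_zero, zero_add]
      unfold lin
      simp
  · intro h; exact absurd (Finset.mem_univ b) h

end Big

section Homog

variable {K : Type*} [Field K] {ι : Type*}

lemma eps_affine_homog {ρ γ : Type*} [DecidableEq γ] [Fintype γ] (I : Finset ρ)
    (a : ρ → γ → MvPolynomial ι K) (ha : ∀ i c, (a i c).IsHomogeneous 1) :
    ∀ S : Finset γ, (eps S (∏ i ∈ I, (1 + lin (a i)))).IsHomogeneous S.card := by
  classical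
  induction I using Finset.induction_on with
  | empty =>
    intro S
    rw [Finset.prod_empty, eps_one]
    by_cases h : S = ∅
    · rw [if_pos h, h, Finset.card_empty]; exact isHomogeneous_one _ _
    · rw [if_neg h]; exact isHomogeneous_zero _ _ _
  | insert i I hi ih =>
    intro S
    rw [Finset.prod_insert hi, add_mul, one_mul, eps_add, eps_lin_mul]
    apply IsHomogeneous.add (ih S)
    apply IsHomogeneous.sum
    intro c hc
    have h1 := (ha i c).mul (ih (S.erase c))
    have h2 : 1 + (S.erase c).card = S.card := by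
      rw [Finset.card_erase_of_mem hc]
      have : 0 < S.card := Finset.card_pos.mpr ⟨c, hc⟩
      omega
    rwa [h2] at h1

lemma phi_deriv_homog {n w k : ℕ} (a : Fin n → Fin w → MvPolynomial ι K)
    (ha : ∀ i c, (a i c).IsHomogeneous 1) (i : Fin n) (j : Fin w) :
    (phi k (X j * ∏ i' ∈ Finset.univ.erase i, (1 + lin (a i')))).IsHomogeneous (k - 1) := by
  unfold phi
  apply IsHomogeneous.sum
  intro S hS
  rw [Finset.mem_powersetCard] at hS
  rw [eps_X_mul]
  by_cases hj : j ∈ S
  · rw [if_pos hj]
    have := eps_affine_homog (Finset.univ.erase i) a ha (S.erase j)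
    rwa [Finset.card_erase_of_mem hj, hS.2] at this
  · rw [if_neg hj]; exact isHomogeneous_zero _ _ _

end Homog

section Map

variable {R S : Type*} [CommRing R] [CommRing S]

lemma map_eps {γ : Type*} [DecidableEq γ] (f : R →+* S) (T : Finset γ) (p : MvPolynomial γ R) :
    f (eps T p) = eps T (MvPolynomial.map f p) := by
  unfold eps; rw [coeff_map]

lemma map_lin {γ : Type*} [Fintype γ] (f : R →+* S) (a : γ → R) :
    MvPolynomial.map f (lin a) = lin (fun c => f (a c)) := by
  unfold lin
  rw [map_sum]
  simp

lemma map_phi {w : ℕ} (f : R →+* S) (k : ℕ) (p : MvPolynomial (Fin w) R) :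
    f (phi k p) = phi k (MvPolynomial.map f p) := by
  unfold phi
  rw [map_sum]
  simp_rw [map_eps]

lemma map_phi_deriv {n w : ℕ} (f : R →+* S) (k : ℕ) (a : Fin n → Fin w → R) (i : Fin n)
    (j : Fin w) :
    f (phi k (X j * ∏ i' ∈ Finset.univ.erase i, (1 + lin (a i')))) =
      phi k (X j * ∏ i' ∈ Finset.univ.erase i, (1 + lin (fun c => f (a i' c)))) := by
  rw [map_phi, map_mul, map_X, map_prod]
  simp only [map_add, map_one, map_lin]

end Map

end Pool.Agent.H546R2.SL
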