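import Pool.Agent.H546R2.SL.A3

set_option autoImplicit false

open Module MvPolynomial

namespace Pool.Agent.H546R2.SL

variable {ι : Type*} {K : Type*} [Field K]

lemma component_mul (d e : ℕ) (hd : e ≤ d) (a y : MvPolynomial ι K) (hy : y.IsHomogeneous e) :
    homogeneousComponent d (a * y) = homogeneousComponent (d - e) a * y := by
  conv_lhs => rw [← sum_homogeneousComponent a, Finset.sum_mul, map_sum]
  have h1 : ∀ i ∈ Finset.range (a.totalDegree + 1),
      homogeneousComponent d (homogeneousComponent i a * y) =
        if i = d - e then homogeneousComponent (d - e) a * y else 0 := by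
    intro i _
    have h2 : homogeneousComponent i a * y ∈ homogeneousSubmodule ι K (i + e) :=
      (homogeneousComponent_isHomogeneous i a).mul hy
    rw [homogeneousComponent_of_mem h2]
    by_cases hi : i = d - e
    · rw [if_pos (by omega), if_pos hi, hi]
    · rw [if_neg (by omega), if_neg hi]
  rw [Finset.sum_congr rfl h1, Finset.sum_ite_eq']
  split_ifs with h
  · rfl
  · rw [homogeneousComponent_eq_zero (d - e) a (by
      rw [Finset.mem_range] at h; omega), zero_mul]

/-- a form in the ideal of forms `y v` of degree `e` is a combination with homogeneous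
coefficients -/
lemma homog_repr {V : Type*} (y : V → MvPolynomial ι K) (e : ℕ) (hy : ∀ v, (y v).IsHomogeneous e)
    (d : ℕ) (hd : e ≤ d) (p : MvPolynomial ι K) (hp : p.IsHomogeneous d)
    (hI : p ∈ Ideal.span (Set.range y)) :
    ∃ c : V →₀ MvPolynomial ι K, (∀ v, (c v).IsHomogeneous (d - e)) ∧
      p = c.sum fun v a => a * y v := by
  classical
  obtain ⟨c, hc⟩ := Finsupp.mem_ideal_span_range_iff_exists_finsupp.mp hI
  refine ⟨c.mapRange (homogeneousComponent (d - e)) (map_zero _), ?_, ?_⟩
  · intro v
    rw [Finsupp.mapRange_apply]
    exact homogeneousComponent_isHomogeneous _ _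
  · rw [Finsupp.sum_mapRange_index (fun v => zero_mul _)]
    have h1 := congrArg (homogeneousComponent d) hc
    rw [homogeneousComponent_eq_self hp] at h1
    rw [← h1, Finsupp.sum, map_sum, Finsupp.sum]
    apply Finset.sum_congr rfl
    intro v _
    exact component_mul d e hd _ _ (hy v)

/-- all forms of large degree lie in the ideal when the only common zero is the origin -/
lemma exists_degree_bound [IsAlgClosed K] [Fintype ι] {V : Type*} (y : V → MvPolynomial ι K)
    (hz : ∀ x : ι → K, (∀ v, eval x (y v) = 0) → x = 0) :
    ∃ M : ℕ, ∀ d ≥ M, ∀ p : MvPolynomial ι K, p.IsHomogeneous d →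
      p ∈ Ideal.span (Set.range y) := by
  classical
  set I := Ideal.span (Set.range y) with hI
  have hX : ∀ i : ι, ∃ n : ℕ, (X i : MvPolynomial ι K) ^ n ∈ I := by
    intro i
    have h1 : (X i : MvPolynomial ι K) ∈ vanishingIdeal K (zeroLocus K I) := by
      rw [mem_vanishingIdeal_iff]
      intro x hx
      rw [hI, zeroLocus_span] at hx
      have h2 : x = 0 := by
        apply hz
        intro v
        have := hx (y v) ⟨v, rfl⟩
        rwa [aeval_eq_eval] at this
      rw [h2, aeval_X]
      rfl
    rw [vanishingIdeal_zeroLocus_eq_radical] at h1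
    exact h1
  choose n hn using hX
  refine ⟨∑ i, n i + 1, ?_⟩
  intro d hd p hp
  rw [p.as_sum]
  apply Ideal.sum_mem
  intro m hm
  have hdeg : ∑ i, m i = d := by
    have := hp (MvPolynomial.mem_support_iff.mp hm)
    rw [Finsupp.weight_apply, Finsupp.sum_fintype _ _ (fun _ => by simp)] at this
    simpa using this
  have hex : ∃ i, n i ≤ m i := by
    by_contra hcon
    push Not at hcon
    have : ∑ i, m i ≤ ∑ i, n i := Finset.sum_le_sum fun i _ => (hcon i).le
    omega
  obtain ⟨i, hi⟩ := hex
  have h3 : (monomial m (coeff m p) : MvPolynomial ι K) =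
      monomial (m - Finsupp.single i (n i)) (coeff m p) * X i ^ n i := by
    rw [X_pow_eq_monomial, monomial_mul, mul_one]
    congr 1
    rw [tsub_add_cancel_of_le]
    rw [Finsupp.single_le_iff]
    exact hi
  rw [h3]
  exact I.mul_mem_left _ (hn i)

lemma restrict_le_pow [Fintype ι] (t : ℕ) :
    restrictTotalDegree ι K t ≤ (restrictTotalDegree ι K 1) ^ t := by
  classical
  have h1 : (1 : MvPolynomial ι K) ∈ restrictTotalDegree ι K 1 := by
    rw [mem_restrictTotalDegree]; simp
  have key : ∀ t : ℕ, ∀ m : ι →₀ ℕ, ∑ i, m i ≤ t →
      (monomial m 1 : MvPolynomial ι K) ∈ (restrictTotalDegree ι K 1) ^ t := by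
    intro t
    induction t with
    | zero =>
      intro m hm
      have : m = 0 := by
        ext i
        have h2 := Finset.single_le_sum (f := fun i => m i) (fun _ _ => Nat.zero_le _)
          (Finset.mem_univ i)
        simp only [Finsupp.coe_zero, Pi.zero_apply]
        omega
      rw [this, pow_zero]
      exact Submodule.mem_one.mpr ⟨1, by simp⟩
    | succ t ih =>
      intro m hm
      by_cases h0 : m = 0
      · rw [h0]
        exact pow_mono_of_one_mem _ h1 (Nat.zero_le (t + 1)) (by
          rw [pow_zero]; exact Submodule.mem_one.mpr ⟨1, by simp⟩)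
      · obtain ⟨i, hi⟩ : ∃ i, m i ≠ 0 := by
          by_contra hcon
          push Not at hcon
          exact h0 (Finsupp.ext hcon)
        have h3 : (monomial m 1 : MvPolynomial ι K) =
            monomial (m - Finsupp.single i 1) 1 * X i := by
          rw [X, monomial_mul, mul_one]
          congr 1
          rw [tsub_add_cancel_of_le]
          rw [Finsupp.single_le_iff]
          omega
        rw [h3, pow_succ]
        apply Submodule.mul_mem_mul
        · apply ih
          have h4 : m = (m - Finsupp.single i 1) + Finsupp.single i 1 := by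
            rw [tsub_add_cancel_of_le]
            rw [Finsupp.single_le_iff]
            omega
          have h5 : ∑ j, m j = ∑ j, (m - Finsupp.single i 1 : ι →₀ ℕ) j + 1 := by
            conv_lhs => rw [h4]
            simp only [Finsupp.add_apply, Finset.sum_add_distrib]
            congr 1
            rw [Finset.sum_eq_single i]
            · simp
            · intro j _ hj; exact Finsupp.single_eq_of_ne (by tauto)
            · intro h; exact absurd (Finset.mem_univ _) h
          omega
        · rw [mem_restrictTotalDegree]
          exact (isHomogeneous_X K i).totalDegree_le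
  intro p hp
  rw [mem_restrictTotalDegree] at hp
  rw [p.as_sum]
  apply Submodule.sum_mem
  intro m hm
  have hm2 : ∑ i, m i ≤ t := by
    have := le_totalDegree hm
    rw [Finsupp.sum_fintype _ _ (fun _ => rfl)] at this
    exact this.trans hp
  have h3 : (monomial m (coeff m p) : MvPolynomial ι K) = (coeff m p) • monomial m 1 := by
    rw [smul_monomial, smul_eq_mul, mul_one]
  rw [h3]
  exact Submodule.smul_mem _ _ (key t m hm2)

/-- spanning property -/
lemma spanning [Fintype ι] {V : Type*} (y : V → MvPolynomial ι K) (e : ℕ) (he : 0 < e)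
    (hy : ∀ v, (y v).IsHomogeneous e) (M : ℕ) (hM : ∀ d ≥ M, ∀ p : MvPolynomial ι K,
      p.IsHomogeneous d → p ∈ Ideal.span (Set.range y))
    (W : Submodule K (MvPolynomial ι K)) (hW : restrictTotalDegree ι K 1 ≤ W)
    (hyW : ∀ v, y v ∈ W) : ∀ d, restrictTotalDegree ι K d ≤ W ^ (d / e + (M + e)) := by
  have h1 : (1 : MvPolynomial ι K) ∈ W := hW (by rw [mem_restrictTotalDegree]; simp)
  intro d
  induction d using Nat.strong_induction_on with
  | _ d ih =>
    by_cases hd : d < M + e
    · calc restrictTotalDegree ι K d ≤ (restrictTotalDegree ι K 1) ^ d := restrict_le_pow d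
        _ ≤ W ^ d := pow_le_pow_left' hW d
        _ ≤ W ^ (d / e + (M + e)) :=
          pow_mono_of_one_mem W h1 (hd.le.trans (Nat.le_add_left _ _))
    · push Not at hd
      intro p hp
      rw [mem_restrictTotalDegree] at hp
      have hsplit : p = homogeneousComponent d p + (p - homogeneousComponent d p) := by ring
      rw [hsplit]
      apply Submodule.add_mem
      · obtain ⟨c, hc, hpc⟩ := homog_repr y e hy d (by omega) _
          (homogeneousComponent_isHomogeneous d p)
          (hM d (by omega) _ (homogeneousComponent_isHomogeneous d p))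
        rw [hpc]
        apply Submodule.sum_mem
        intro v _
        have h2 : c v ∈ W ^ ((d - e) / e + (M + e)) := by
          apply ih (d - e) (by omega)
          rw [mem_restrictTotalDegree]
          exact (hc v).totalDegree_le
        have h3 : (d - e) / e + (M + e) + 1 = d / e + (M + e) := by
          have : d / e = (d - e) / e + 1 := by
            rw [← Nat.add_div_right (d - e) he, Nat.sub_add_cancel (by omega)]
          omega
        rw [← h3, pow_succ]
        exact Submodule.mul_mem_mul h2 (hyW v)
      · have h4 : (p - homogeneousComponent d p) ∈ restrictTotalDegree ι K (d - 1) := by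
          rw [mem_restrictTotalDegree, totalDegree, Finset.sup_le_iff]
          intro m hm
          rw [MvPolynomial.mem_support_iff, coeff_sub, coeff_homogeneousComponent] at hm
          have hmd : m.degree ≠ d := by
            intro hcon
            rw [if_pos hcon, sub_self] at hm
            exact hm rfl
          rw [if_neg hmd, sub_zero] at hm
          have h5 := le_totalDegree (MvPolynomial.mem_support_iff.mpr hm)
          have h6 : (m.sum fun _ e => e) = m.degree := rfl
          rw [h6] at h5 ⊢
          omega
        have h7 := ih (d - 1) (by omega) h4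
        exact pow_mono_of_one_mem W h1 (Nat.add_le_add_right (Nat.div_le_div_right (by omega)) _) h7

/-- abstract lower bound: if a good space with parameter `R` contains forms of degree `e` in
`D = card ι` variables whose only common zero is the origin then `e ^ D ≤ 2 ^ R` -/
theorem degree_bound [IsAlgClosed K] [Fintype ι] {V : Type*} (y : V → MvPolynomial ι K) (e : ℕ)
    (he : 0 < e) (hy : ∀ v, (y v).IsHomogeneous e)
    (hz : ∀ x : ι → K, (∀ v, eval x (y v) = 0) → x = 0) (R : ℕ)
    (W : Submodule K (MvPolynomial ι K)) (hW : restrictTotalDegree ι K 1 ≤ W)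
    (hgood : Good (Nm ι) R W) (hyW : ∀ v, y v ∈ W) : e ^ Fintype.card ι ≤ 2 ^ R := by
  obtain ⟨M, hM⟩ := exists_degree_bound y hz
  have hspan := spanning y e he hy M hM W hW hyW
  apply growth_contradiction R e (M + e) he
  intro τ
  have h1 := hspan (e * τ)
  rw [Nat.mul_div_cancel_left _ he] at h1
  have fd : FiniteDimensional K ↥(W ^ (τ + (M + e))) :=
    Module.Finite.iff_fg.mpr (hgood.fg.pow _)
  calc Nm ι (e * τ) = finrank K ↥(restrictTotalDegree ι K (e * τ)) := (finrank_restrict _).symm
    _ ≤ finrank K ↥(W ^ (τ + (M + e))) := Submodule.finrank_mono h1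
    _ ≤ _ := hgood.bound _

end Pool.Agent.H546R2.SL
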