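import Pool.Agent.H546R2.SL.A12
import Pool.Agent.H546R2.SL.A2b
import Pool.Agent.H546R2.SL.A4

set_option autoImplicit false
set_option linter.unusedSectionVars false

open MvPolynomial Finset

namespace Pool.Agent.H546R2.SL

section Ent

variable (K : Type*) [Field K] (k n₁ L B n : ℕ)

/-- the entries -/
noncomputable def aent (b : Fin B) (i : Fin n) (j : Fin (2 * k)) :
    MvPolynomial (Fin B × Fin L × Fin k) K :=
  ∑ r : Fin k, C (((j : ℕ) : K) ^ (r : ℕ)) *
    (C ((tau n₁ i : ℕ) : K) * ∑ l : Fin L, C (((grp i : ℕ) : K) ^ (l : ℕ)) * X (b, l, r))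

lemma aent_homog (b : Fin B) (i : Fin n) (j : Fin (2 * k)) :
    (aent K k n₁ L B n b i j).IsHomogeneous 1 := by
  unfold aent
  apply IsHomogeneous.sum
  intro r _
  apply IsHomogeneous.C_mul
  apply IsHomogeneous.C_mul
  apply IsHomogeneous.sum
  intro l _
  exact isHomogeneous_C_mul_X _ _

lemma eval_aent (ξ : Fin B × Fin L × Fin k → K) (b : Fin B) (i : Fin n) (j : Fin (2 * k)) :
    eval ξ (aent K k n₁ L B n b i j) = avec (fun r => (tau n₁ i : K) * ∑ l : Fin L,
      ((grp i : ℕ) : K) ^ (l : ℕ) * ξ (b, l, r)) j := by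
  unfold aent avec
  simp only [map_sum, map_mul, eval_C, eval_X, map_pow]

end Ent

lemma cst_ne_zero (K : Type*) [Field K] [CharZero K] (n k w B : ℕ) : cst K n k w B ≠ 0 := by
  unfold cst
  apply mul_ne_zero
  · apply mul_ne_zero
    · apply mul_ne_zero
      · exact_mod_cast (Nat.factorial_pos _).ne'
      · apply pow_ne_zero
        exact_mod_cast (Nat.factorial_pos _).ne'
    · exact_mod_cast (Nat.factorial_pos _).ne'
  · exact pow_ne_zero _ (by norm_num)

lemma cst_C (K : Type*) [Field K] {ι : Type*} (n k w B : ℕ) :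
    cst (MvPolynomial ι K) n k w B = C (cst K n k w B) := by
  unfold cst
  simp

lemma card_col (n k w B : ℕ) (hkn : k ≤ n) (hB : 0 < B) :
    Fintype.card (Col n k w B) = n + (B * w + (B - 1) * k) := by
  have h : Fintype.card (Col n k w B) = (n - k) + B * (w + k) := by
    simp [Fintype.card_sum, Fintype.card_prod]
  have hBk : B * k = (B - 1) * k + k := by
    conv_lhs => rw [show B = (B - 1) + 1 by omega]
    ring
  rw [h, mul_add]
  omega

lemma card_row (n k w B : ℕ) :
    Fintype.card (Fin n ⊕ RowV k w B) = n + (B * w + (B - 1) * k) := by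
  simp [Fintype.card_sum, Fintype.card_prod]

/-- the main inequality -/
theorem main_ineq (K : Type*) [Field K] [IsAlgClosed K] [CharZero K] {k n n₁ L B E₀ : ℕ}
    (hk : 2 ≤ k) (hkn : k ≤ n) (hB : 0 < B) (hn : 2 * n₁ ≤ n) (hL : L + E₀ ^ 2 ≤ n₁)
    (hE : ∀ Cf : Finset (Fin (2 * k)) → K,
      (∀ T : Finset (Fin (2 * k)), T.card = k → Cf T = 1) →
      ∀ P : Finset (Fin k → K), (∀ z ∈ P, ∀ j : Fin (2 * k),
        ∑ r ∈ Finset.range k, (-1) ^ r * ((r.factorial : K) *
          ∑ J ∈ (Finset.univ.erase j).powersetCard r, (∏ c ∈ J, avec z c) * Cf (insert j J)) = 0) →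
      P.card ≤ E₀)
    (N : ℕ) (hN : N = n + (B * (2 * k) + (B - 1) * k))
    (s : ℕ) (M : Finset ℕ) (g : ℕ → MvPolynomial (Fin N × Fin N) K) (hg : NSLP s M g)
    (hf : ∃ i < s, perN K N = g i) :
    (k - 1) ^ (B * (L * k)) ≤ 2 ^ (3 * M.card) := by
  classical
  obtain ⟨ζ₀, hζ₀⟩ := exists_zeta K k (by omega)
  set ι := Fin B × Fin L × Fin k with hι
  set ζ : Fin k → MvPolynomial ι K := fun c => C (ζ₀ c) with hζ
  have hζ1 : ∀ t ≤ k, ∑ V : Finset (Fin k), (if V.card = t then ∏ c ∈ V, ζ c else 0) =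
      if t = 0 then 1 else if t = k then -1 else 0 := by
    intro t ht
    have h1 := congrArg (C (σ := ι)) (hζ₀ t ht)
    rw [map_sum] at h1
    have h2 : ∀ V : Finset (Fin k), (if V.card = t then ∏ c ∈ V, ζ c else 0) =
        C (σ := ι) (if V.card = t then ∏ c ∈ V, ζ₀ c else 0) := by
      intro V
      split_ifs
      · rw [map_prod]
      · rw [map_zero]
    simp_rw [h2]
    rw [h1]
    split_ifs
    · rw [map_one]
    · rw [map_neg, map_one]
    · rw [map_zero]
  set a := aent K k n₁ L B n with ha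
  have hcr := card_row n k (2 * k) B
  have hcc := card_col n k (2 * k) B hkn hB
  let er : Fin N ≃ Fin n ⊕ RowV k (2 * k) B :=
    Fintype.equivOfCardEq (by rw [hcr, Fintype.card_fin, hN])
  let ec : Fin N ≃ Col n k (2 * k) B :=
    Fintype.equivOfCardEq (by rw [hcc, Fintype.card_fin, hN])
  have hdeg : ∀ r c, bigM ζ a r c ∈ restrictTotalDegree ι K 1 := by
    intro r c
    rw [mem_restrictTotalDegree]
    rcases r with i | ⟨b, _⟩ | _
    · rcases c with c | ⟨b, j | j⟩
      · simp [bigM, rowR]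
      · exact (aent_homog K k n₁ L B n b i j).totalDegree_le
      · simp [bigM, rowR]
    · rcases c with c | ⟨b', d⟩
      · simp [bigM, rowV, ded]
      · simp only [bigM, rowV, ded, Sum.elim_inr]
        split_ifs <;> simp
    · rcases c with c | ⟨b', d | d⟩
      · simp [bigM, rowV, fl]
      · simp [bigM, rowV, fl]
      · simp only [bigM, rowV, fl, Sum.elim_inr, hζ]
        rw [totalDegree_C]; exact Nat.zero_le _
  obtain ⟨W, hW0, hWgood, hWd⟩ := gradient_good' (good_W₀ (K := K) (ι := ι))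
    (aeval (fun p : Fin N × Fin N => bigM ζ a (er p.1) (ec p.2)))
    (fun v => by rw [aeval_X]; exact hdeg _ _) s M g hg (perN K N) hf
  set y : Fin B × Fin n × Fin (2 * k) → MvPolynomial ι K := fun v =>
    phi k (X v.2.2 * ∏ i' ∈ Finset.univ.erase v.2.1, (1 + lin (a v.1 i'))) with hy
  have hyW : ∀ v, y v ∈ W := by
    rintro ⟨b, i, j⟩
    have h1 := hWd (er.symm (Sum.inl i), ec.symm (Sum.inr (b, Sum.inl j)))
    rw [aeval_pderiv, Equiv.apply_symm_apply, Equiv.apply_symm_apply,
      eps_bigM_deriv ζ (by omega) hkn hB hζ1 a b i j, cst_C, ← smul_eq_C_mul] at h1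
    have h2 := W.smul_mem (cst K n k (2 * k) B)⁻¹ h1
    rwa [smul_smul, inv_mul_cancel₀ (cst_ne_zero K n k (2 * k) B), one_smul] at h2
  have hcardι : Fintype.card ι = B * (L * k) := by
    change Fintype.card (Fin B × Fin L × Fin k) = _
    simp [Fintype.card_prod]
  rw [← hcardι]
  apply degree_bound y (k - 1) (by omega) (fun v => phi_deriv_homog (a v.1)
    (fun i c => aent_homog K k n₁ L B n v.1 i c) v.2.1 v.2.2) ?_ (3 * M.card) W hW0 hWgood hyW
  intro ξ hξ
  have h3 : ∀ b : Fin B, (fun (l : Fin L) (r : Fin k) => ξ (b, l, r)) = 0 := by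
    intro b
    apply block_zero hk hn hL hE _ (fun i j => eval ξ (a b i j))
    · intro i j
      exact eval_aent K k n₁ L B n ξ b i j
    · intro i j
      have h4 := hξ (b, i, j)
      rw [hy] at h4
      simp only at h4
      rwa [map_phi_deriv] at h4
  funext ⟨b, l, r⟩
  exact congrFun (congrFun (h3 b) l) r

end Pool.Agent.H546R2.SL
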