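import Pool.Agent.H546R2.SL.A1

set_option autoImplicit false

open Module

namespace Pool.Agent.H546R2.SL

variable {K A : Type*} [Field K] [CommRing A] [Algebra K A]

/-- `W` is finite-dimensional, contains `1`, and `dim W^t ≤ 2^R h(t)` -/
structure Good (h : ℕ → ℕ) (R : ℕ) (W : Submodule K A) : Prop where
  fg : W.FG
  one : (1 : A) ∈ W
  bound : ∀ t, finrank K ↥(W ^ t) ≤ 2 ^ R * h t

lemma Good.mono {h : ℕ → ℕ} {R R' : ℕ} {W : Submodule K A} (hW : Good h R W) (hR : R ≤ R') :
    Good h R' W :=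
  ⟨hW.fg, hW.one, fun t => (hW.bound t).trans
    (Nat.mul_le_mul_right _ (Nat.pow_le_pow_right (by norm_num) hR))⟩

lemma Good.step [IsDomain A] {h : ℕ → ℕ} {R : ℕ} {W : Submodule K A} (hW : Good h R W) {u v : A}
    (hu : u ∈ W) (hv : v ∈ W) : Good h (R + 1) (W ⊔ Submodule.span K {u * v}) := by
  refine ⟨hW.fg.sup (Submodule.fg_span_singleton _), (le_sup_left (a := W)) hW.one, ?_⟩
  intro t
  cases t with
  | zero =>
    have h1 := hW.bound 0
    rw [pow_zero] at h1 ⊢
    calc _ ≤ 2 ^ R * h 0 := h1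
      _ ≤ 2 ^ (R + 1) * h 0 :=
        Nat.mul_le_mul_right _ (Nat.pow_le_pow_right (by norm_num) (Nat.le_succ R))
  | succ t =>
    have fdW : FiniteDimensional K ↥(W ^ (t + 1)) :=
      Module.Finite.iff_fg.mpr (hW.fg.pow _)
    have h1 := growth_step W hW.fg hW.one u v hu hv t
    have h2 : finrank K ↥(W ^ t) ≤ finrank K ↥(W ^ (t + 1)) :=
      Submodule.finrank_mono (pow_mono_of_one_mem W hW.one (Nat.le_succ t))
    have h3 := hW.bound (t + 1)
    calc _ ≤ finrank K ↥(W ^ (t + 1)) + finrank K ↥(W ^ t) := h1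
      _ ≤ 2 * (2 ^ R * h (t + 1)) := by omega
      _ = 2 ^ (R + 1) * h (t + 1) := by ring

variable {σ : Type*}

open MvPolynomial

/-- `g 0, …, g (s-1)` is a straight-line program -/
def IsSLP (s : ℕ) (g : ℕ → MvPolynomial σ K) : Prop :=
  ∀ i < s, (∃ v, g i = X v) ∨ (∃ c, g i = C c) ∨
    ∃ a < i, ∃ b < i, g i = g a + g b ∨ g i = g a * g b

/-- forward pass -/
lemma forward [IsDomain A] {h : ℕ → ℕ} {W₀ : Submodule K A} (hW₀ : Good h 0 W₀)
    (S : MvPolynomial σ K →ₐ[K] A) (hS : ∀ v, S (X v) ∈ W₀) (s : ℕ) (g : ℕ → MvPolynomial σ K)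
    (hg : IsSLP s g) :
    ∀ j ≤ s, ∃ W : Submodule K A, W₀ ≤ W ∧ Good h j W ∧ ∀ i < j, S (g i) ∈ W := by
  intro j
  induction j with
  | zero => intro _; exact ⟨W₀, le_rfl, hW₀, fun i hi => absurd hi (by omega)⟩
  | succ j ih =>
    intro hj
    obtain ⟨W, h0, hW, hW2⟩ := ih (by omega)
    have key : ∀ W' : Submodule K A, W ≤ W' → S (g j) ∈ W' → ∀ i < j + 1, S (g i) ∈ W' := by
      intro W' hle hj' i hi
      rcases Nat.lt_succ_iff_lt_or_eq.mp hi with h1 | h1
      · exact hle (hW2 i h1)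
      · rw [h1]; exact hj'
    rcases hg j (by omega) with ⟨v, hv⟩ | ⟨c, hc⟩ | ⟨a, ha, b, hb, hab | hab⟩
    · refine ⟨W, h0, hW.mono (Nat.le_succ j), key W le_rfl ?_⟩
      rw [hv]; exact h0 (hS v)
    · refine ⟨W, h0, hW.mono (Nat.le_succ j), key W le_rfl ?_⟩
      rw [hc, ← algebraMap_eq, AlgHom.commutes, Algebra.algebraMap_eq_smul_one]
      exact W.smul_mem c hW.one
    · refine ⟨W, h0, hW.mono (Nat.le_succ j), key W le_rfl ?_⟩
      rw [hab, map_add]
      exact W.add_mem (hW2 a ha) (hW2 b hb)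
    · refine ⟨W ⊔ Submodule.span K {S (g a) * S (g b)}, h0.trans le_sup_left,
        hW.step (hW2 a ha) (hW2 b hb), key _ le_sup_left ?_⟩
      rw [hab, map_mul]
      exact (le_sup_right (a := W)) (Submodule.mem_span_singleton_self _)

/-- backward pass (Baur–Strassen) -/
lemma backward [IsDomain A] {h : ℕ → ℕ} (S : MvPolynomial σ K →ₐ[K] A) (s : ℕ)
    (g : ℕ → MvPolynomial σ K) (hg : IsSLP s g) (R : ℕ) (W : Submodule K A) (hW : Good h R W)
    (hgW : ∀ i < s, S (g i) ∈ W) (f : MvPolynomial σ K) (hf : ∃ i < s, f = g i) :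
    ∀ d ≤ s, ∃ W' : Submodule K A, W ≤ W' ∧ Good h (R + 2 * d) W' ∧
      ∃ lam : ℕ → A, (∀ i, lam i ∈ W') ∧ ∀ v, ∃ μ ∈ W',
        S (pderiv v f) = (∑ i ∈ Finset.range (s - d), lam i * S (pderiv v (g i))) + μ := by
  classical
  intro d
  induction d with
  | zero =>
    intro _
    obtain ⟨i₀, hi₀, hfi⟩ := hf
    refine ⟨W, le_rfl, hW.mono (by omega), fun i => if i = i₀ then 1 else 0, ?_, ?_⟩
    · intro i
      by_cases hi : i = i₀
      · simp only [if_pos hi]; exact hW.one
      · simp only [if_neg hi]; exact W.zero_mem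
    · intro v
      refine ⟨0, W.zero_mem, ?_⟩
      rw [add_zero, Nat.sub_zero]
      simp only [ite_mul, one_mul, zero_mul]
      rw [Finset.sum_ite_eq' (Finset.range s) i₀, if_pos (Finset.mem_range.mpr hi₀), hfi]
  | succ d ih =>
    intro hd
    obtain ⟨W', hWW', hW', lam, hlam, hexp⟩ := ih (by omega)
    set j := s - (d + 1) with hj
    have hsj : s - d = j + 1 := by omega
    rw [hsj] at hexp
    simp_rw [Finset.sum_range_succ] at hexp
    rcases hg j (by omega) with ⟨u, hu⟩ | ⟨c, hc⟩ | ⟨a, ha, b, hb, hab | hab⟩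
    · refine ⟨W', hWW', hW'.mono (by omega), lam, hlam, fun v => ?_⟩
      obtain ⟨μ, hμ, he⟩ := hexp v
      refine ⟨lam j * S (pderiv v (g j)) + μ, ?_, by rw [he]; ring⟩
      apply W'.add_mem _ hμ
      rw [hu, pderiv_X]
      by_cases huv : u = v
      · subst huv; simpa using hlam j
      · rw [Pi.single_eq_of_ne huv]; simp
    · refine ⟨W', hWW', hW'.mono (by omega), lam, hlam, fun v => ?_⟩
      obtain ⟨μ, hμ, he⟩ := hexp v
      refine ⟨μ, hμ, ?_⟩
      rw [he, hc, pderiv_C]; simp
    · -- sum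
      refine ⟨W', hWW', hW'.mono (by omega),
        fun i => lam i + (if i = a then lam j else 0) + (if i = b then lam j else 0), ?_, ?_⟩
      · intro i
        refine W'.add_mem (W'.add_mem (hlam i) ?_) ?_
        · split_ifs
          · exact hlam j
          · exact W'.zero_mem
        · split_ifs
          · exact hlam j
          · exact W'.zero_mem
      · intro v
        obtain ⟨μ, hμ, he⟩ := hexp v
        refine ⟨μ, hμ, ?_⟩
        rw [he, hab]
        simp only [map_add, add_mul, ite_mul, zero_mul, Finset.sum_add_distrib, mul_add]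
        rw [Finset.sum_ite_eq' (Finset.range j) a, Finset.sum_ite_eq' (Finset.range j) b,
          if_pos (Finset.mem_range.mpr ha), if_pos (Finset.mem_range.mpr hb)]
        ring
    · -- product
      have hga : S (g a) ∈ W' := hWW' (hgW a (by omega))
      have hgb : S (g b) ∈ W' := hWW' (hgW b (by omega))
      have h1 := hW'.step (hlam j) hgb
      have hle1 : W' ≤ W' ⊔ Submodule.span K {lam j * S (g b)} := le_sup_left
      have h2 := h1.step (hle1 (hlam j)) (hle1 hga)
      set W'' := W' ⊔ Submodule.span K {lam j * S (g b)} ⊔ Submodule.span K {lam j * S (g a)}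
        with hW''
      have hle2 : W' ≤ W'' := hle1.trans le_sup_left
      have hm1 : lam j * S (g b) ∈ W'' :=
        (le_sup_left (b := Submodule.span K {lam j * S (g a)}))
          ((le_sup_right (a := W')) (Submodule.mem_span_singleton_self _))
      have hm2 : lam j * S (g a) ∈ W'' :=
        (le_sup_right (a := W' ⊔ Submodule.span K {lam j * S (g b)}))
          (Submodule.mem_span_singleton_self _)
      refine ⟨W'', hWW'.trans hle2, h2.mono (by omega),
        fun i => lam i + (if i = a then lam j * S (g b) else 0) +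
          (if i = b then lam j * S (g a) else 0), ?_, ?_⟩
      · intro i
        refine W''.add_mem (W''.add_mem (hle2 (hlam i)) ?_) ?_
        · split_ifs
          · exact hm1
          · exact W''.zero_mem
        · split_ifs
          · exact hm2
          · exact W''.zero_mem
      · intro v
        obtain ⟨μ, hμ, he⟩ := hexp v
        refine ⟨μ, hle2 hμ, ?_⟩
        rw [he, hab]
        simp only [Derivation.leibniz, smul_eq_mul, map_add, map_mul, add_mul, ite_mul, zero_mul,
          Finset.sum_add_distrib, mul_add]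
        rw [Finset.sum_ite_eq' (Finset.range j) a, Finset.sum_ite_eq' (Finset.range j) b,
          if_pos (Finset.mem_range.mpr ha), if_pos (Finset.mem_range.mpr hb)]
        ring

/-- all partial derivatives of the output lie in a good space with `R = 3 s` -/
theorem gradient_good [IsDomain A] {h : ℕ → ℕ} {W₀ : Submodule K A} (hW₀ : Good h 0 W₀)
    (S : MvPolynomial σ K →ₐ[K] A) (hS : ∀ v, S (X v) ∈ W₀) (s : ℕ) (g : ℕ → MvPolynomial σ K)
    (hg : IsSLP s g) (f : MvPolynomial σ K) (hf : ∃ i < s, f = g i) :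
    ∃ W : Submodule K A, W₀ ≤ W ∧ Good h (3 * s) W ∧ ∀ v, S (pderiv v f) ∈ W := by
  obtain ⟨W, h0, hW, hgW⟩ := forward hW₀ S hS s g hg s le_rfl
  obtain ⟨W', hWW', hW', lam, _, hexp⟩ := backward S s g hg s W hW hgW f hf s le_rfl
  refine ⟨W', h0.trans hWW', hW'.mono (by omega), fun v => ?_⟩
  obtain ⟨μ, hμ, he⟩ := hexp v
  rw [Nat.sub_self, Finset.range_zero, Finset.sum_empty, zero_add] at he
  rw [he]
  exact hμ

end Pool.Agent.H546R2.SL
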