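import Pool.Agent.H546R2.SL.A2

set_option autoImplicit false

open Module MvPolynomial

namespace Pool.Agent.H546R2.SL

variable {ι : Type*} [Fintype ι]

/-- exponents of degree at most `t` -/
def Ex (ι : Type*) (t : ℕ) : Set (ι →₀ ℕ) := {m | (m.sum fun _ e => e) ≤ t}

lemma mem_Ex (t : ℕ) (m : ι →₀ ℕ) : m ∈ Ex ι t ↔ ∑ i, m i ≤ t := by
  unfold Ex
  rw [Set.mem_ofPred_eq, Finsupp.sum_fintype _ _ (fun _ => rfl)]

/-- the number of monomials of degree at most `t` -/
noncomputable def Nm (ι : Type*) (t : ℕ) : ℕ := Nat.card (Ex ι t)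

instance finite_Ex (t : ℕ) : Finite (Ex ι t) := by
  apply Set.Finite.to_subtype
  have h1 : (Set.Finite {f : ι → ℕ | ∀ i, f i ≤ t}) := Set.Finite.pi' fun _ ↦ Set.finite_le_nat _
  have h2 := h1.preimage (f := fun m : ι →₀ ℕ => (m : ι → ℕ)) DFunLike.coe_injective.injOn
  apply h2.subset
  intro m hm i
  rw [mem_Ex] at hm
  exact (Finset.single_le_sum (f := fun i => m i) (fun _ _ => Nat.zero_le _)
    (Finset.mem_univ i)).trans hm

lemma Nm_pos (t : ℕ) : 0 < Nm ι t := by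
  unfold Nm
  have : Nonempty (Ex ι t) := ⟨⟨0, by rw [mem_Ex]; simp⟩⟩
  exact Nat.card_pos

lemma Nm_mono {s t : ℕ} (h : s ≤ t) : Nm ι s ≤ Nm ι t := by
  unfold Nm
  apply Nat.card_le_card_of_injective (fun m : Ex ι s => (⟨m.1, by
    have := m.2
    rw [mem_Ex] at this ⊢
    exact this.trans h⟩ : Ex ι t))
  intro a b hab
  exact Subtype.ext (by simpa using hab)

lemma Nm_le (t : ℕ) : Nm ι t ≤ (t + 1) ^ Fintype.card ι := by
  classical
  unfold Nm
  have h : Nat.card (ι → Fin (t + 1)) = (t + 1) ^ Fintype.card ι := by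
    rw [Nat.card_eq_fintype_card, Fintype.card_fun, Fintype.card_fin]
  rw [← h]
  apply Nat.card_le_card_of_injective (fun m : Ex ι t => fun i => (⟨m.1 i, by
    have := m.2
    rw [mem_Ex] at this
    have h2 := (Finset.single_le_sum (f := fun i => m.1 i) (fun _ _ => Nat.zero_le _)
      (Finset.mem_univ i)).trans this
    omega⟩ : Fin (t + 1)))
  intro a b hab
  apply Subtype.ext
  ext i
  have := congrFun hab i
  simpa using this

lemma Nm_scale (e t : ℕ) (he : 0 < e) :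
    e ^ Fintype.card ι * Nm ι t ≤ Nm ι (e * (t + Fintype.card ι)) := by
  classical
  unfold Nm
  have h : e ^ Fintype.card ι * Nat.card (Ex ι t) = Nat.card ((ι → Fin e) × Ex ι t) := by
    have h2 : Nat.card (ι → Fin e) = e ^ Fintype.card ι := by
      rw [Nat.card_eq_fintype_card, Fintype.card_fun, Fintype.card_fin]
    rw [Nat.card_prod, h2]
  rw [h]
  apply Nat.card_le_card_of_injective (fun x : (ι → Fin e) × Ex ι t =>
    (⟨Finsupp.equivFunOnFinite.symm (fun i => (x.1 i : ℕ) + e * x.2.1 i), by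
      rw [mem_Ex]
      have h2 := x.2.2
      rw [mem_Ex] at h2
      simp only [Finsupp.equivFunOnFinite_symm_apply_apply]
      rw [Finset.sum_add_distrib, ← Finset.mul_sum, mul_add, add_comm]
      apply add_le_add
      · exact Nat.mul_le_mul_left _ h2
      · calc ∑ i, (x.1 i : ℕ) ≤ ∑ _i : ι, e := Finset.sum_le_sum fun i _ => (x.1 i).2.le
          _ = e * Fintype.card ι := by
            rw [Finset.sum_const, Finset.card_univ, smul_eq_mul, mul_comm]⟩ :
      Ex ι (e * (t + Fintype.card ι))))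
  rintro ⟨r, m⟩ ⟨r', m'⟩ hab
  have hab' : ∀ i, (r i : ℕ) + e * m.1 i = (r' i : ℕ) + e * m'.1 i := by
    intro i
    have h1 := congrArg (fun y : Ex ι (e * (t + Fintype.card ι)) => y.1 i) hab
    simpa using h1
  have hr : ∀ i, (r i : ℕ) = r' i := by
    intro i
    have h1 := congrArg (fun y => y % e) (hab' i)
    simp only [Nat.add_mul_mod_self_left] at h1
    rwa [Nat.mod_eq_of_lt (r i).2, Nat.mod_eq_of_lt (r' i).2] at h1
  have hm : ∀ i, m.1 i = m'.1 i := by
    intro i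
    have h1 := hab' i
    rw [hr i] at h1
    exact Nat.eq_of_mul_eq_mul_left he (by omega)
  apply Prod.ext
  · funext i
    exact Fin.ext (hr i)
  · apply Subtype.ext
    ext i
    exact hm i

/-- the growth argument -/
lemma growth_contradiction (R e M₀ : ℕ) (he : 0 < e)
    (h : ∀ τ, Nm ι (e * τ) ≤ 2 ^ R * Nm ι (τ + M₀)) : e ^ Fintype.card ι ≤ 2 ^ R := by
  by_contra hcon
  push Not at hcon
  set D := Fintype.card ι with hD
  set c := D + M₀ with hc
  have h1 : ∀ τ, (2 ^ R + 1) * Nm ι τ ≤ 2 ^ R * Nm ι (τ + c) := by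
    intro τ
    calc (2 ^ R + 1) * Nm ι τ ≤ e ^ D * Nm ι τ := Nat.mul_le_mul_right _ hcon
      _ ≤ Nm ι (e * (τ + D)) := Nm_scale e τ he
      _ ≤ 2 ^ R * Nm ι (τ + D + M₀) := h _
      _ = 2 ^ R * Nm ι (τ + c) := by rw [hc, add_assoc]
  have h2 : ∀ j : ℕ, (2 ^ R + 1) ^ j ≤ (2 ^ R) ^ j * Nm ι (j * c) := by
    intro j
    induction j with
    | zero =>
      rw [pow_zero, pow_zero, one_mul]
      exact Nm_pos _
    | succ j ih =>
      calc (2 ^ R + 1) ^ (j + 1) = (2 ^ R + 1) ^ j * (2 ^ R + 1) := pow_succ _ _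
        _ ≤ ((2 ^ R) ^ j * Nm ι (j * c)) * (2 ^ R + 1) := Nat.mul_le_mul_right _ ih
        _ = (2 ^ R) ^ j * ((2 ^ R + 1) * Nm ι (j * c)) := by ring
        _ ≤ (2 ^ R) ^ j * (2 ^ R * Nm ι (j * c + c)) := Nat.mul_le_mul_left _ (h1 _)
        _ = (2 ^ R) ^ (j + 1) * Nm ι ((j + 1) * c) := by ring_nf
  have h3 : ∀ j : ℕ, ((2 ^ R + 1 : ℕ) : ℝ) ^ j ≤ ((2 ^ R : ℕ) : ℝ) ^ j * (((j * c + 1 : ℕ) : ℝ)) ^ D := by
    intro j
    have : (2 ^ R + 1) ^ j ≤ (2 ^ R) ^ j * (j * c + 1) ^ D :=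
      (h2 j).trans (Nat.mul_le_mul_left _ (Nm_le _))
    exact_mod_cast this
  set ρ : ℝ := ((2 ^ R + 1 : ℕ) : ℝ) / ((2 ^ R : ℕ) : ℝ) with hρ
  have hRpos : (0 : ℝ) < ((2 ^ R : ℕ) : ℝ) := by positivity
  have hρ1 : 1 < ρ := by
    rw [hρ, lt_div_iff₀ hRpos]
    push_cast
    linarith
  have h4 : ∀ j : ℕ, ρ ^ j ≤ (((j * c + 1 : ℕ) : ℝ)) ^ D := by
    intro j
    rw [hρ, div_pow, div_le_iff₀ (by positivity)]
    linarith [h3 j, mul_comm ((((j * c + 1 : ℕ) : ℝ)) ^ D) (((2 ^ R : ℕ) : ℝ) ^ j)]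
  have hlim := tendsto_pow_const_div_const_pow_of_one_lt D hρ1
  have hpos : (0 : ℝ) < 1 / (((c : ℝ) + 1) ^ D + 1) := by positivity
  have hev := (hlim.eventually (gt_mem_nhds hpos)).and (Filter.eventually_ge_atTop 1)
  obtain ⟨j, hj, hj1⟩ := hev.exists
  have hρj : (0 : ℝ) < ρ ^ j := by positivity
  rw [div_lt_div_iff₀ hρj (by positivity)] at hj
  have hj1' : (1 : ℝ) ≤ j := by exact_mod_cast hj1
  have h5 : (((j * c + 1 : ℕ) : ℝ)) ^ D ≤ ((j : ℝ) * (c + 1)) ^ D := by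
    apply pow_le_pow_left₀ (by positivity)
    push_cast
    nlinarith
  rw [mul_pow] at h5
  have h6 := h4 j
  have hjD : (0 : ℝ) < (j : ℝ) ^ D := by positivity
  nlinarith

variable {K : Type*} [Field K]

lemma finrank_restrict (t : ℕ) :
    finrank K ↥(restrictTotalDegree ι K t) = Nm ι t := by
  have := finite_Ex (ι := ι) t
  have h := finrank_eq_nat_card_basis (basisRestrictSupport K (Ex ι t))
  exact h

omit [Fintype ι] in
lemma pow_restrict_le (t : ℕ) :
    (restrictTotalDegree ι K 1) ^ t ≤ restrictTotalDegree ι K t := by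
  induction t with
  | zero =>
    rw [pow_zero]
    intro x hx
    rw [Submodule.mem_one] at hx
    obtain ⟨y, rfl⟩ := hx
    rw [mem_restrictTotalDegree, algebraMap_eq, totalDegree_C]
  | succ t ih =>
    rw [pow_succ, Submodule.mul_le]
    intro x hx y hy
    have hx' := ih hx
    rw [mem_restrictTotalDegree] at hx' hy ⊢
    exact (totalDegree_mul _ _).trans (add_le_add hx' hy)

lemma good_W₀ : Good (A := MvPolynomial ι K) (Nm ι) 0 (restrictTotalDegree ι K 1) := by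
  refine ⟨Module.Finite.iff_fg.mp inferInstance, ?_, ?_⟩
  · rw [mem_restrictTotalDegree]; simp
  · intro t
    rw [pow_zero, one_mul, ← finrank_restrict (K := K)]
    exact Submodule.finrank_mono (pow_restrict_le t)

end Pool.Agent.H546R2.SL
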