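import Mathlib

set_option autoImplicit false
set_option linter.unusedSectionVars false

open MvPolynomial Finset

namespace Pool.Agent.H546R2.SL

variable {γ : Type*} [DecidableEq γ] {R : Type*} [CommRing R]

/-- exponent vector of a squarefree monomial -/
noncomputable def ind (S : Finset γ) : γ →₀ ℕ := ∑ c ∈ S, Finsupp.single c 1

lemma ind_apply (S : Finset γ) (c : γ) : ind S c = if c ∈ S then 1 else 0 := by
  unfold ind
  rw [Finsupp.finsetSum_apply]
  simp [Finsupp.single_apply]

lemma ind_inj {S T : Finset γ} (h : ind S = ind T) : S = T := by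
  ext c
  have := DFunLike.congr_fun h c
  rw [ind_apply, ind_apply] at this
  by_cases h1 : c ∈ S <;> by_cases h2 : c ∈ T <;> simp_all

lemma ind_empty : ind (∅ : Finset γ) = 0 := by simp [ind]

lemma ind_add {S T : Finset γ} (h : Disjoint S T) : ind (S ∪ T) = ind S + ind T := by
  unfold ind; rw [Finset.sum_union h]

lemma ind_degree (S : Finset γ) : (ind S).degree = S.card := by
  unfold ind
  rw [map_sum]
  simp

/-- coefficient of a squarefree monomial -/
noncomputable def eps (S : Finset γ) (p : MvPolynomial γ R) : R := coeff (ind S) p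

lemma eps_add (S : Finset γ) (p q : MvPolynomial γ R) : eps S (p + q) = eps S p + eps S q :=
  coeff_add _ _ _

lemma eps_sum {ι : Type*} (S : Finset γ) (s : Finset ι) (p : ι → MvPolynomial γ R) :
    eps S (∑ i ∈ s, p i) = ∑ i ∈ s, eps S (p i) := coeff_sum _ _ _

lemma eps_C_mul (S : Finset γ) (a : R) (p : MvPolynomial γ R) : eps S (C a * p) = a * eps S p :=
  coeff_C_mul _ _ _

lemma eps_one (S : Finset γ) : eps S (1 : MvPolynomial γ R) = if S = ∅ then 1 else 0 := by
  unfold eps
  rw [coeff_one]
  by_cases h : S = ∅
  · rw [if_pos h, h, if_pos ind_empty.symm]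
  · rw [if_neg h, if_neg]
    intro hcon
    exact h (ind_inj (hcon.symm.trans ind_empty.symm))

lemma eps_mul (S : Finset γ) (p q : MvPolynomial γ R) :
    eps S (p * q) = ∑ T ∈ S.powerset, eps T p * eps (S \ T) q := by
  unfold eps
  rw [coeff_mul]
  symm
  apply Finset.sum_bij (fun T _ => (ind T, ind (S \ T)))
  · intro T hT
    rw [Finset.mem_powerset] at hT
    rw [Finset.HasAntidiagonal.mem_antidiagonal, ← ind_add Finset.disjoint_sdiff,
      Finset.union_sdiff_of_subset hT]
  · intro T _ T' _ h
    exact ind_inj (Prod.ext_iff.mp h).1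
  · rintro ⟨m, m'⟩ h
    rw [Finset.HasAntidiagonal.mem_antidiagonal] at h
    simp only at h
    have hc : ∀ c, m c + m' c = if c ∈ S then 1 else 0 := by
      intro c
      rw [← Finsupp.add_apply, h, ind_apply]
    refine ⟨S.filter (fun c => m c = 1), ?_, ?_⟩
    · rw [Finset.mem_powerset]; exact Finset.filter_subset _ _
    · ext c
      · simp only [ind_apply, Finset.mem_filter]
        have := hc c
        by_cases hcS : c ∈ S
        · rw [if_pos hcS] at this
          by_cases hm : m c = 1
          · simp [hcS, hm]
          · simp [hcS, hm]; omega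
        · rw [if_neg hcS] at this
          simp [hcS]; omega
      · simp only [ind_apply, Finset.mem_sdiff, Finset.mem_filter]
        have := hc c
        by_cases hcS : c ∈ S
        · rw [if_pos hcS] at this
          by_cases hm : m c = 1
          · simp [hcS, hm]; omega
          · simp [hcS, hm]; omega
        · rw [if_neg hcS] at this
          simp [hcS]; omega
  · intro T _
    rfl

variable [Fintype γ]

/-- the linear form with coefficients `a` -/
noncomputable def lin (a : γ → R) : MvPolynomial γ R := ∑ c, C (a c) * X c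

lemma eps_lin (S : Finset γ) (a : γ → R) :
    eps S (lin a) = ∑ c, if S = {c} then a c else 0 := by
  unfold lin
  rw [eps_sum]
  apply Finset.sum_congr rfl
  intro c _
  rw [eps_C_mul]
  unfold eps
  rw [coeff_X]
  have : (Finsupp.single c 1 = ind S) ↔ S = {c} := by
    constructor
    · intro h
      apply ind_inj
      rw [← h]; simp [ind]
    · rintro rfl; simp [ind]
  by_cases h : S = {c}
  · rw [if_pos (this.mpr h), if_pos h, mul_one]
  · rw [if_neg (fun hh => h (this.mp hh)), if_neg h, mul_zero]

lemma eps_lin_mul (S : Finset γ) (a : γ → R) (p : MvPolynomial γ R) :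
    eps S (lin a * p) = ∑ c ∈ S, a c * eps (S.erase c) p := by
  rw [eps_mul]
  simp_rw [eps_lin, Finset.sum_mul]
  rw [Finset.sum_comm]
  rw [← Finset.sum_filter_add_sum_filter_not Finset.univ (fun c => c ∈ S)]
  have h2 : ∑ c ∈ Finset.univ.filter (fun c => ¬ c ∈ S), ∑ T ∈ S.powerset,
      (if T = {c} then a c else 0) * eps (S \ T) p = 0 := by
    apply Finset.sum_eq_zero
    intro c hc
    rw [Finset.mem_filter] at hc
    apply Finset.sum_eq_zero
    intro T hT
    rw [Finset.mem_powerset] at hT
    rw [if_neg, zero_mul]
    rintro rfl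
    exact hc.2 (hT (Finset.mem_singleton_self c))
  rw [h2, add_zero]
  rw [Finset.filter_mem_eq_inter, Finset.univ_inter]
  apply Finset.sum_congr rfl
  intro c hc
  rw [Finset.sum_eq_single {c}]
  · rw [if_pos rfl, Finset.sdiff_singleton_eq_erase]
  · intro T _ hT
    rw [if_neg hT, zero_mul]
  · intro h
    exfalso
    apply h
    rw [Finset.mem_powerset, Finset.singleton_subset_iff]
    exact hc

lemma eps_lin_pow (a : γ → R) (r : ℕ) : ∀ S : Finset γ,
    eps S (lin a ^ r) = if S.card = r then (r.factorial : R) * ∏ c ∈ S, a c else 0 := by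
  induction r with
  | zero =>
    intro S
    rw [pow_zero, eps_one]
    by_cases h : S = ∅
    · rw [if_pos h, h]; simp
    · rw [if_neg h, if_neg (by rwa [Finset.card_eq_zero])]
  | succ r ih =>
    intro S
    rw [pow_succ', eps_lin_mul]
    by_cases h : S.card = r + 1
    · rw [if_pos h]
      have h1 : ∀ c ∈ S, a c * eps (S.erase c) (lin a ^ r) =
          (r.factorial : R) * ∏ c ∈ S, a c := by
        intro c hc
        rw [ih, if_pos (by rw [Finset.card_erase_of_mem hc, h]; simp),
          ← Finset.mul_prod_erase S a hc]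
        ring
      rw [Finset.sum_congr rfl h1, Finset.sum_const, h, Nat.factorial_succ, nsmul_eq_mul]
      push_cast
      ring
    · rw [if_neg h]
      apply Finset.sum_eq_zero
      intro c hc
      rw [ih, if_neg (by
        rw [Finset.card_erase_of_mem hc]
        have : 0 < S.card := Finset.card_pos.mpr ⟨c, hc⟩
        omega), mul_zero]

/-- MacMahon's formula -/
lemma eps_prod_lin {ρ : Type*} [Fintype ρ] [DecidableEq ρ] (M : ρ → γ → R)
    (hcard : Fintype.card ρ = Fintype.card γ) :
    eps Finset.univ (∏ r, lin (M r)) = ∑ σ : ρ ≃ γ, ∏ r, M r (σ r) := by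
  unfold lin
  rw [Finset.prod_univ_sum, eps_sum]
  have h1 : ∀ f : ρ → γ, eps Finset.univ (∏ r, (C (M r (f r)) * X (f r) : MvPolynomial γ R)) =
      if Function.Bijective f then ∏ r, M r (f r) else 0 := by
    intro f
    rw [Finset.prod_mul_distrib, ← map_prod, eps_C_mul]
    have h2 : (∏ r, X (f r) : MvPolynomial γ R) = monomial (∑ r, Finsupp.single (f r) 1) 1 := by
      simp_rw [X]
      rw [← monomial_sum_one]
    rw [h2]
    unfold eps
    rw [coeff_monomial]
    have h3 : (∑ r, Finsupp.single (f r) 1 = ind (Finset.univ : Finset γ)) ↔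
        Function.Bijective f := by
      constructor
      · intro h
        have hsurj : Function.Surjective f := by
          intro c
          by_contra hcon
          push Not at hcon
          have h4 := DFunLike.congr_fun h c
          rw [ind_apply, if_pos (Finset.mem_univ c), Finsupp.finsetSum_apply,
            Finset.sum_eq_zero] at h4
          · exact absurd h4 (by norm_num)
          · intro r _
            rw [Finsupp.single_apply, if_neg (hcon r)]
        exact (Fintype.bijective_iff_surjective_and_card f).mpr ⟨hsurj, hcard⟩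
      · intro h
        unfold ind
        exact Fintype.sum_bijective f h _ _ (fun _ => rfl)
    by_cases hf : Function.Bijective f
    · rw [if_pos (h3.mpr hf), if_pos hf, mul_one]
    · rw [if_neg (fun hh => hf (h3.mp hh)), if_neg hf, mul_zero]
  simp_rw [h1]
  rw [← Finset.sum_filter]
  symm
  apply Finset.sum_bij (fun (σ : ρ ≃ γ) _ => (σ : ρ → γ))
  · intro σ _
    rw [Finset.mem_filter]
    exact ⟨by simp, σ.bijective⟩
  · intro σ _ τ _ h
    exact Equiv.ext (congrFun h)
  · intro f hf
    rw [Finset.mem_filter] at hf
    exact ⟨Equiv.ofBijective f hf.2, Finset.mem_univ _, rfl⟩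
  · intro σ _
    rfl

/-- relation with Mathlib's permanent -/
lemma permanent_eq {ρ : Type*} [Fintype ρ] [DecidableEq ρ] {N : ℕ} (M : ρ → γ → R)
    (er : Fin N ≃ ρ) (ec : Fin N ≃ γ) :
    Matrix.permanent (Matrix.of fun i j => M (er i) (ec j)) =
      eps Finset.univ (∏ r, lin (M r)) := by
  rw [eps_prod_lin M (by rw [← Fintype.card_congr er, ← Fintype.card_congr ec])]
  unfold Matrix.permanent
  apply Fintype.sum_equiv
    (⟨fun σ => er.symm.trans (σ.symm.trans ec),
      fun τ => (er.trans (τ.trans ec.symm)).symm, ?_, ?_⟩ :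
      Equiv.Perm (Fin N) ≃ (ρ ≃ γ))
  · intro σ
    simp only [Matrix.of_apply]
    apply Fintype.prod_equiv (σ.trans er)
    intro i
    simp
  · intro σ
    ext i
    simp
  · intro τ
    ext i
    simp

end Pool.Agent.H546R2.SL
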