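import Pool.Agent.H546R2.SL.A5

set_option autoImplicit false
set_option linter.unusedSectionVars false

open MvPolynomial Finset

namespace Pool.Agent.H546R2.SL

section General

variable {γ : Type*} [DecidableEq γ] [Fintype γ] {R : Type*} [CommRing R]

lemma eps_prod_zero_of_col {ρ : Type*} (I : Finset ρ) (M : ρ → γ → R) (c : γ)
    (hM : ∀ i ∈ I, M i c = 0) : ∀ S : Finset γ, c ∈ S → eps S (∏ i ∈ I, lin (M i)) = 0 := by
  classical
  induction I using Finset.induction_on with
  | empty =>
    intro S hc
    rw [Finset.prod_empty, eps_one, if_neg]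
    rintro rfl
    exact absurd hc (Finset.notMem_empty c)
  | insert i I hi ih =>
    intro S hc
    rw [Finset.prod_insert hi, eps_lin_mul]
    apply Finset.sum_eq_zero
    intro c' hc'
    by_cases h : c' = c
    · rw [h, hM i (Finset.mem_insert_self i I), zero_mul]
    · rw [ih (fun j hj => hM j (Finset.mem_insert_of_mem hj)) (S.erase c')
        (Finset.mem_erase.mpr ⟨fun hh => h hh.symm, hc⟩), mul_zero]

lemma eps_prod_zero_of_card {ρ : Type*} (I : Finset ρ) (M : ρ → γ → R) :
    ∀ S : Finset γ, S.card ≠ I.card → eps S (∏ i ∈ I, lin (M i)) = 0 := by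
  classical
  induction I using Finset.induction_on with
  | empty =>
    intro S hc
    rw [Finset.prod_empty, eps_one, if_neg]
    rintro rfl
    exact hc rfl
  | insert i I hi ih =>
    intro S hc
    rw [Finset.prod_insert hi, eps_lin_mul]
    apply Finset.sum_eq_zero
    intro c' hc'
    rw [ih (S.erase c'), mul_zero]
    rw [Finset.card_erase_of_mem hc']
    rw [Finset.card_insert_of_notMem hi] at hc
    have : 0 < S.card := Finset.card_pos.mpr ⟨c', hc'⟩
    omega

lemma eps_affine_zero {ρ : Type*} (I : Finset ρ) (s : ρ → R) (M : ρ → γ → R) :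
    ∀ S : Finset γ, I.card < S.card → eps S (∏ i ∈ I, (C (s i) + lin (M i))) = 0 := by
  classical
  induction I using Finset.induction_on with
  | empty =>
    intro S hc
    rw [Finset.prod_empty, eps_one, if_neg]
    rintro rfl
    exact absurd hc (by simp)
  | insert i I hi ih =>
    intro S hc
    rw [Finset.card_insert_of_notMem hi] at hc
    rw [Finset.prod_insert hi, add_mul, eps_add, eps_C_mul, ih S (by omega), mul_zero, zero_add,
      eps_lin_mul]
    apply Finset.sum_eq_zero
    intro c' hc'
    rw [ih (S.erase c'), mul_zero]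
    rw [Finset.card_erase_of_mem hc']
    omega

end General

section Gadget

variable {R : Type*} [CommRing R] {n k w B : ℕ}

/-- the columns -/
abbrev Col (n k w B : ℕ) := Fin (n - k) ⊕ (Fin B × (Fin w ⊕ Fin k))

/-- the constant rows -/
abbrev RowV (k w B : ℕ) := (Fin B × Fin w) ⊕ Fin ((B - 1) * k)

/-- a variable row -/
def rowR (s : Fin n → R) (a : Fin B → Fin n → Fin w → R) (i : Fin n) : Col n k w B → R
  | .inl _ => s i
  | .inr (b, .inl j) => a b i j
  | .inr (_, .inr _) => 0

/-- a dedicated row -/
def ded (b : Fin B) : Col n k w B → R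
  | .inl _ => 0
  | .inr (b', _) => if b' = b then 1 else 0

/-- a floating row -/
def fl (ζ : Fin k → R) : Col n k w B → R
  | .inl _ => 0
  | .inr (_, .inl _) => 0
  | .inr (_, .inr c) => ζ c

/-- the constant rows -/
def rowV (ζ : Fin k → R) : RowV k w B → Col n k w B → R
  | .inl (b, _) => ded b
  | .inr _ => fl ζ

/-- the embedding of the variable columns of block `b` -/
def embX (k : ℕ) {w B : ℕ} (b : Fin B) : Fin w ↪ Fin B × (Fin w ⊕ Fin k) :=
  ⟨fun j => (b, .inl j), fun _ _ h => by simpa using h⟩

lemma erase_inl {α β : Type*} [DecidableEq α] [DecidableEq β] (s : Finset α) (t : Finset β)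
    (x : α) : (s.disjSum t).erase (Sum.inl x) = (s.erase x).disjSum t := by
  ext c
  rcases c with c | c <;> simp

lemma erase_inr {α β : Type*} [DecidableEq α] [DecidableEq β] (s : Finset α) (t : Finset β)
    (x : β) : (s.disjSum t).erase (Sum.inr x) = s.disjSum (t.erase x) := by
  ext c
  rcases c with c | c <;> simp

lemma erase_map_embX (b : Fin B) (J : Finset (Fin w)) (j : Fin w) :
    (J.map (embX k b)).erase (embX k b j) = (J.erase j).map (embX k b) := by
  rw [Finset.map_erase]

/-- evaluation of the variable rows on all `U` columns and variable columns of one block -/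
lemma eps_R (s : Fin n → R) (a : Fin B → Fin n → Fin w → R) (b : Fin B) (I : Finset (Fin n)) :
    ∀ (U' : Finset (Fin (n - k))) (J : Finset (Fin w)), U'.card + J.card = I.card →
      eps (U'.disjSum (J.map (embX k b))) (∏ i ∈ I, lin (rowR (k := k) s a i)) =
        (U'.card.factorial : R) * eps J (∏ i ∈ I, (C (s i) + lin (a b i))) := by
  classical
  induction I using Finset.induction_on with
  | empty =>
    intro U' J h
    rw [Finset.card_empty] at h
    have h1 : U' = ∅ := Finset.card_eq_zero.mp (by omega)
    have h2 : J = ∅ := Finset.card_eq_zero.mp (by omega)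
    subst h1 h2
    rw [Finset.prod_empty, Finset.prod_empty, eps_one, eps_one]
    simp
  | insert i I hi ih =>
    intro U' J h
    rw [Finset.card_insert_of_notMem hi] at h
    rw [Finset.prod_insert hi, Finset.prod_insert hi, eps_lin_mul, Finset.sum_disjSum]
    have h1 : ∑ u ∈ U', rowR (k := k) s a i (Sum.inl u) *
        eps ((U'.disjSum (J.map (embX k b))).erase (Sum.inl u))
          (∏ i ∈ I, lin (rowR (k := k) s a i)) =
        (U'.card.factorial : R) * (s i * eps J (∏ i ∈ I, (C (s i) + lin (a b i)))) := by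
      rcases Finset.eq_empty_or_nonempty U' with h0 | h0
      · subst h0
        rw [Finset.card_empty] at h
        rw [eps_affine_zero I s (a b) J (by omega)]
        simp
      · have hpos : 0 < U'.card := Finset.card_pos.mpr h0
        have h2 : ∀ u ∈ U', rowR (k := k) s a i (Sum.inl u) *
            eps ((U'.disjSum (J.map (embX k b))).erase (Sum.inl u))
              (∏ i ∈ I, lin (rowR (k := k) s a i)) =
            s i * (((U'.card - 1).factorial : R) * eps J (∏ i ∈ I, (C (s i) + lin (a b i)))) := by
          intro u hu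
          rw [erase_inl, ih (U'.erase u) J (by rw [Finset.card_erase_of_mem hu]; omega),
            Finset.card_erase_of_mem hu]
          rfl
        rw [Finset.sum_congr rfl h2, Finset.sum_const, nsmul_eq_mul]
        have h3 : (U'.card.factorial : R) = (U'.card : R) * ((U'.card - 1).factorial : R) := by
          rw [← Nat.mul_factorial_pred hpos.ne']
          push_cast
          ring
        rw [h3]; ring
    have h2 : ∑ x ∈ J.map (embX k b), rowR (k := k) s a i (Sum.inr x) *
        eps ((U'.disjSum (J.map (embX k b))).erase (Sum.inr x))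
          (∏ i ∈ I, lin (rowR (k := k) s a i)) =
        (U'.card.factorial : R) * ∑ j ∈ J, a b i j *
          eps (J.erase j) (∏ i ∈ I, (C (s i) + lin (a b i))) := by
      rw [Finset.sum_map, Finset.mul_sum]
      apply Finset.sum_congr rfl
      intro j hj
      rw [erase_inr, erase_map_embX, ih U' (J.erase j) (by
        rw [Finset.card_erase_of_mem hj]
        have : 0 < J.card := Finset.card_pos.mpr ⟨j, hj⟩
        omega)]
      have : rowR (k := k) s a i (Sum.inr (embX k b j)) = a b i j := rfl
      rw [this]; ring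
    rw [h1, h2, add_mul, eps_add, eps_C_mul, eps_lin_mul]
    ring

/-- the columns of block `b` -/
def blk (n k w : ℕ) {B : ℕ} (b : Fin B) : Finset (Col n k w B) :=
  Finset.univ.filter fun c => ∃ d, c = Sum.inr (b, d)

lemma mem_blk (b : Fin B) (c : Col n k w B) : c ∈ blk n k w b ↔ ∃ d, c = .inr (b, d) := by
  unfold blk
  rw [Finset.mem_filter]
  simp only [Finset.mem_univ, true_and]

/-- dedicated rows -/
lemma eps_ded (s : Finset (Fin B)) : ∀ Z : Finset (Col n k w B),
    eps Z (∏ b ∈ s, lin (ded (R := R) b) ^ w) =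
      if (∀ c ∈ Z, ∃ b ∈ s, c ∈ blk n k w b) ∧ (∀ b ∈ s, (Z ∩ blk n k w b).card = w)
      then ((w.factorial : R)) ^ s.card else 0 := by
  classical
  induction s using Finset.induction_on with
  | empty =>
    intro Z
    rw [Finset.prod_empty, eps_one]
    by_cases h : Z = ∅
    · subst h; simp
    · rw [if_neg h, if_neg]
      rintro ⟨h1, _⟩
      apply h
      rw [Finset.eq_empty_iff_forall_notMem]
      intro c hc
      obtain ⟨b, hb, _⟩ := h1 c hc
      exact absurd hb (Finset.notMem_empty b)
  | insert b₀ s hb₀ ih =>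
    intro Z
    rw [Finset.prod_insert hb₀, eps_mul]
    have hded : ∀ c : Col n k w B, ded (R := R) b₀ c = if c ∈ blk n k w b₀ then 1 else 0 := by
      intro c
      rcases c with c | ⟨b', d⟩
      · rw [if_neg (by rw [mem_blk]; rintro ⟨d, hd⟩; exact absurd hd (by simp))]
        rfl
      · by_cases hb : b' = b₀
        · rw [if_pos (by rw [mem_blk]; exact ⟨d, by rw [hb]⟩)]
          simp [ded, hb]
        · rw [if_neg (by
            rw [mem_blk]; rintro ⟨d', hd⟩
            rw [Sum.inr.injEq, Prod.mk.injEq] at hd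
            exact hb hd.1)]
          simp [ded, hb]
    -- only T = Z ∩ blk b₀ contributes
    have hterm : ∀ T ∈ Z.powerset, T ≠ Z ∩ blk n k w b₀ →
        eps T (lin (ded (R := R) b₀) ^ w) * eps (Z \ T) (∏ b ∈ s, lin (ded (R := R) b) ^ w) = 0 := by
      intro T hT hne
      rw [Finset.mem_powerset] at hT
      by_cases hsub : T ⊆ blk n k w b₀
      · -- some element of Z ∩ blk b₀ is in Z \ T
        have hex : ∃ c, c ∈ Z ∩ blk n k w b₀ ∧ c ∉ T := by
          by_contra hcon
          push Not at hcon
          apply hne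
          apply Finset.Subset.antisymm
          · exact Finset.subset_inter hT hsub
          · exact fun c hc => hcon c hc
        obtain ⟨c, hc, hcT⟩ := hex
        rw [Finset.mem_inter] at hc
        rw [ih (Z \ T), if_neg, mul_zero]
        rintro ⟨h1, _⟩
        obtain ⟨b, hb, hcb⟩ := h1 c (Finset.mem_sdiff.mpr ⟨hc.1, hcT⟩)
        obtain ⟨d, hd⟩ := (mem_blk b c).mp hcb
        obtain ⟨d', hd'⟩ := (mem_blk b₀ c).mp hc.2
        rw [hd, Sum.inr.injEq, Prod.mk.injEq] at hd'
        rw [hd'.1] at hb
        exact hb₀ hb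
      · obtain ⟨c, hcT, hcb⟩ := Finset.not_subset.mp hsub
        rw [eps_lin_pow]
        split_ifs with h
        · rw [Finset.prod_eq_zero hcT (by rw [hded, if_neg hcb]), mul_zero, zero_mul]
        · rw [zero_mul]
    rw [Finset.sum_eq_single (Z ∩ blk n k w b₀) hterm (by
      intro h; exact absurd (Finset.mem_powerset.mpr Finset.inter_subset_left) h)]
    rw [eps_lin_pow, ih]
    have hprod : ∏ c ∈ Z ∩ blk n k w b₀, ded (R := R) b₀ c = 1 := by
      apply Finset.prod_eq_one
      intro c hc
      rw [hded, if_pos (Finset.mem_inter.mp hc).2]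
    rw [hprod, mul_one]
    have hdisj : ∀ b ∈ s, (Z \ (Z ∩ blk n k w b₀)) ∩ blk n k w b = Z ∩ blk n k w b := by
      intro b hb
      ext c
      simp only [Finset.mem_inter, Finset.mem_sdiff]
      constructor
      · rintro ⟨⟨h1, _⟩, h2⟩; exact ⟨h1, h2⟩
      · rintro ⟨h1, h2⟩
        refine ⟨⟨h1, ?_⟩, h2⟩
        rintro ⟨_, h3⟩
        obtain ⟨d, hd⟩ := (mem_blk b c).mp h2
        obtain ⟨d', hd'⟩ := (mem_blk b₀ c).mp h3
        rw [hd, Sum.inr.injEq, Prod.mk.injEq] at hd'
        rw [hd'.1] at hb
        exact hb₀ hb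
    have hiff : ((∀ c ∈ Z, ∃ b ∈ insert b₀ s, c ∈ blk n k w b) ∧
        (∀ b ∈ insert b₀ s, (Z ∩ blk n k w b).card = w)) ↔
        ((Z ∩ blk n k w b₀).card = w ∧
        ((∀ c ∈ Z \ (Z ∩ blk n k w b₀), ∃ b ∈ s, c ∈ blk n k w b) ∧
        (∀ b ∈ s, ((Z \ (Z ∩ blk n k w b₀)) ∩ blk n k w b).card = w))) := by
      constructor
      · rintro ⟨h1, h2⟩
        refine ⟨h2 b₀ (Finset.mem_insert_self _ _), ?_, ?_⟩
        · intro c hc
          rw [Finset.mem_sdiff, Finset.mem_inter] at hc
          obtain ⟨b, hb, hcb⟩ := h1 c hc.1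
          rcases Finset.mem_insert.mp hb with h3 | h3
          · rw [h3] at hcb
            exact absurd ⟨hc.1, hcb⟩ hc.2
          · exact ⟨b, h3, hcb⟩
        · intro b hb
          rw [hdisj b hb]
          exact h2 b (Finset.mem_insert_of_mem hb)
      · rintro ⟨h1, h2, h3⟩
        refine ⟨?_, ?_⟩
        · intro c hc
          by_cases hcb : c ∈ blk n k w b₀
          · exact ⟨b₀, Finset.mem_insert_self _ _, hcb⟩
          · obtain ⟨b, hb, hcb'⟩ := h2 c (by
              rw [Finset.mem_sdiff, Finset.mem_inter]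
              exact ⟨hc, fun hh => hcb hh.2⟩)
            exact ⟨b, Finset.mem_insert_of_mem hb, hcb'⟩
        · intro b hb
          rcases Finset.mem_insert.mp hb with h4 | h4
          · rw [h4]; exact h1
          · rw [← hdisj b h4]; exact h3 b h4
    by_cases hc1 : (Z ∩ blk n k w b₀).card = w
    · rw [if_pos hc1]
      by_cases hc2 : (∀ c ∈ Z \ (Z ∩ blk n k w b₀), ∃ b ∈ s, c ∈ blk n k w b) ∧
        (∀ b ∈ s, ((Z \ (Z ∩ blk n k w b₀)) ∩ blk n k w b).card = w)
      · rw [if_pos hc2, if_pos (hiff.mpr ⟨hc1, hc2⟩), Finset.card_insert_of_notMem hb₀, pow_succ']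
      · rw [if_neg hc2, if_neg (fun hh => hc2 (hiff.mp hh).2), mul_zero]
    · rw [if_neg hc1, if_neg (fun hh => hc1 (hiff.mp hh).1), zero_mul]

end Gadget

end Pool.Agent.H546R2.SL
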