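import Pool.Agent.H546R2.SL.A6

set_option autoImplicit false
set_option linter.unusedSectionVars false

open MvPolynomial Finset

namespace Pool.Agent.H546R2.SL

variable {R : Type*} [CommRing R] {n k w B : ℕ}

/-- the product of the constant rows -/
lemma prod_rowV (ζ : Fin k → R) :
    ∏ r : RowV k w B, lin (γ := Col n k w B) (rowV ζ r) =
      lin (fl ζ) ^ ((B - 1) * k) * ∏ b ∈ (Finset.univ : Finset (Fin B)), lin (ded (R := R) b) ^ w := by
  rw [Fintype.prod_sum_type, Fintype.prod_prod_type, mul_comm]
  congr 1
  · simp only [rowV, Finset.prod_const, Finset.card_univ, Fintype.card_fin]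
  · simp only [rowV, Finset.prod_const, Finset.card_univ, Fintype.card_fin]

/-- the set of `T`-columns given by a family of subsets -/
def eW (n w : ℕ) (f : Fin B → Finset (Fin k)) : Finset (Col n k w B) :=
  Finset.univ.filter fun c => ∃ b c', c = Sum.inr (b, Sum.inr c') ∧ c' ∈ f b

lemma mem_eW (f : Fin B → Finset (Fin k)) (b : Fin B) (c : Fin k) :
    (Sum.inr (b, Sum.inr c) : Col n k w B) ∈ eW n w f ↔ c ∈ f b := by
  unfold eW
  rw [Finset.mem_filter]
  simp only [Finset.mem_univ, true_and, Sum.inr.injEq, Prod.mk.injEq]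
  constructor
  · rintro ⟨b', c', ⟨rfl, rfl⟩, h⟩; exact h
  · intro h; exact ⟨b, c, ⟨rfl, rfl⟩, h⟩

lemma eW_inj : Function.Injective (eW (k := k) (B := B) n w) := by
  intro f g h
  funext b
  ext c
  rw [← mem_eW (n := n) (w := w), h, mem_eW]

/-- slices -/
lemma eW_eq (f : Fin B → Finset (Fin k)) : eW n w f =
    (Finset.univ.sigma f).map ⟨fun x : (Σ _ : Fin B, Fin k) => Sum.inr (x.1, Sum.inr x.2), by
      rintro ⟨b, c⟩ ⟨b', c'⟩ h
      simp only [Sum.inr.injEq, Prod.mk.injEq] at h
      obtain ⟨rfl, rfl⟩ := h
      rfl⟩ := by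
  ext c
  simp only [eW, Finset.mem_filter, Finset.mem_univ, true_and, Finset.mem_map, Finset.mem_sigma]
  constructor
  · rintro ⟨b, c', rfl, h⟩; exact ⟨⟨b, c'⟩, h, rfl⟩
  · rintro ⟨⟨b, c'⟩, h, rfl⟩; exact ⟨b, c', rfl, h⟩

lemma eW_card (f : Fin B → Finset (Fin k)) : (eW n w f).card = ∑ b, (f b).card := by
  rw [eW_eq, Finset.card_map, Finset.card_sigma]

lemma prod_fl_eW (ζ : Fin k → R) (f : Fin B → Finset (Fin k)) :
    ∏ c ∈ eW n w f, fl (n := n) (w := w) (B := B) ζ c = ∏ b, ∏ c ∈ f b, ζ c := by
  rw [eW_eq, Finset.prod_map, Finset.prod_sigma]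
  rfl

lemma eW_inter_blk (f : Fin B → Finset (Fin k)) (b : Fin B) :
    (eW n w f ∩ blk n k w b).card = (f b).card := by
  have h : eW n w f ∩ blk n k w b =
      (f b).map ⟨fun c => Sum.inr (b, Sum.inr c), by
        intro c c' h
        simpa using h⟩ := by
    ext c
    rw [Finset.mem_inter, mem_blk]
    simp only [eW, Finset.mem_filter, Finset.mem_univ, true_and, Finset.mem_map]
    constructor
    · rintro ⟨⟨b', c', rfl, h1⟩, ⟨d, hd⟩⟩
      rw [Sum.inr.injEq, Prod.mk.injEq] at hd
      obtain ⟨rfl, rfl⟩ := hd
      exact ⟨c', h1, rfl⟩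
    · rintro ⟨c', h1, rfl⟩
      exact ⟨⟨b, c', rfl, h1⟩, ⟨Sum.inr c', rfl⟩⟩
  rw [h, Finset.card_map]

lemma card_eq_sum_blk (T : Finset (Col n k w B)) (hU : ∀ u, (Sum.inl u : Col n k w B) ∉ T) :
    T.card = ∑ b : Fin B, (T ∩ blk n k w b).card := by
  classical
  rw [← Finset.card_biUnion]
  · congr 1
    ext c
    simp only [Finset.mem_biUnion, Finset.mem_univ, true_and, Finset.mem_inter]
    constructor
    · intro hc
      rcases c with u | ⟨b, d⟩
      · exact absurd hc (hU u)
      · exact ⟨b, hc, (mem_blk b _).mpr ⟨d, rfl⟩⟩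
    · rintro ⟨b, hc, _⟩; exact hc
  · intro b _ b' _ hbb'
    rw [Function.onFun, Finset.disjoint_left]
    intro c hc hc'
    rw [Finset.mem_inter, mem_blk] at hc hc'
    obtain ⟨_, d, hd⟩ := hc
    obtain ⟨_, d', hd'⟩ := hc'
    rw [hd, Sum.inr.injEq, Prod.mk.injEq] at hd'
    exact hbb' hd'.1

/-- evaluation of the constant rows -/
lemma eps_Q (ζ : Fin k → R) (T : Finset (Col n k w B))
    (hU : ∀ u, (Sum.inl u : Col n k w B) ∉ T)
    (hY : ∀ b c, (Sum.inr (b, Sum.inr c) : Col n k w B) ∈ T)
    (hT : T.card = B * w + (B - 1) * k) :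
    eps T (∏ r : RowV k w B, lin (rowV ζ r)) =
      (w.factorial : R) ^ B * (((B - 1) * k).factorial : R) *
        ∏ b : Fin B, ∑ V : Finset (Fin k),
          (if V.card + w = (T ∩ blk n k w b).card then ∏ c ∈ V, ζ c else 0) := by
  classical
  rw [prod_rowV, eps_mul]
  have hsumT : T.card = ∑ b : Fin B, (T ∩ blk n k w b).card := card_eq_sum_blk T hU
  -- value of one term
  have hterm : ∀ f : Fin B → Finset (Fin k),
      eps (eW n w f) (lin (fl ζ) ^ ((B - 1) * k)) *
        eps (T \ eW n w f) (∏ b ∈ (Finset.univ : Finset (Fin B)), lin (ded (R := R) b) ^ w) =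
      (w.factorial : R) ^ B * (((B - 1) * k).factorial : R) *
        ∏ b : Fin B, (if (f b).card + w = (T ∩ blk n k w b).card then ∏ c ∈ f b, ζ c else 0) := by
    intro f
    have hsub : eW n w f ⊆ T := by
      intro c hc
      simp only [eW, Finset.mem_filter, Finset.mem_univ, true_and] at hc
      obtain ⟨b, c', rfl, _⟩ := hc
      exact hY b c'
    have hcard : ∀ b, ((T \ eW n w f) ∩ blk n k w b).card + (f b).card =
        (T ∩ blk n k w b).card := by
      intro b
      rw [← eW_inter_blk (n := n) (w := w) f b, ← Finset.card_union_of_disjoint]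
      · congr 1
        ext c
        simp only [Finset.mem_union, Finset.mem_inter, Finset.mem_sdiff]
        constructor
        · rintro (⟨⟨h1, _⟩, h2⟩ | ⟨h1, h2⟩)
          · exact ⟨h1, h2⟩
          · exact ⟨hsub h1, h2⟩
        · rintro ⟨h1, h2⟩
          by_cases h3 : c ∈ eW n w f
          · exact Or.inr ⟨h3, h2⟩
          · exact Or.inl ⟨⟨h1, h3⟩, h2⟩
      · rw [Finset.disjoint_left]
        intro c hc hc'
        simp only [Finset.mem_inter, Finset.mem_sdiff] at hc hc'
        exact hc.1.2 hc'.1
    rw [eps_lin_pow, eps_ded, eW_card, prod_fl_eW, Finset.card_univ, Fintype.card_fin]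
    by_cases hall : ∀ b, (f b).card + w = (T ∩ blk n k w b).card
    · have hF : ∑ b, (f b).card = (B - 1) * k := by
        have h1 : ∑ b : Fin B, ((f b).card + w) = T.card := by
          rw [hsumT]; exact Finset.sum_congr rfl fun b _ => hall b
        rw [Finset.sum_add_distrib, Finset.sum_const, Finset.card_univ, Fintype.card_fin,
          smul_eq_mul, hT] at h1
        omega
      rw [if_pos hF, if_pos]
      · rw [Finset.prod_congr rfl (fun b _ => if_pos (hall b))]
        ring
      · refine ⟨?_, ?_⟩
        · intro c hc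
          rw [Finset.mem_sdiff] at hc
          rcases c with u | ⟨b, d⟩
          · exact absurd hc.1 (hU u)
          · exact ⟨b, Finset.mem_univ _, (mem_blk b _).mpr ⟨d, rfl⟩⟩
        · intro b _
          have := hcard b
          have := hall b
          omega
    · push Not at hall
      obtain ⟨b, hb⟩ := hall
      have hz : ∏ b : Fin B,
          (if (f b).card + w = (T ∩ blk n k w b).card then ∏ c ∈ f b, ζ c else 0) = 0 :=
        Finset.prod_eq_zero (Finset.mem_univ b) (if_neg hb)
      have hneg : ¬ ((∀ c ∈ T \ eW n w f, ∃ b ∈ (Finset.univ : Finset (Fin B)),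
          c ∈ blk n k w b) ∧ ∀ b ∈ (Finset.univ : Finset (Fin B)),
          ((T \ eW n w f) ∩ blk n k w b).card = w) := by
        rintro ⟨_, h2⟩
        have h3 := h2 b (Finset.mem_univ b)
        have := hcard b
        omega
      rw [hz, mul_zero, if_neg hneg, mul_zero]
  rw [Finset.prod_univ_sum, Fintype.piFinset_univ, Finset.mul_sum]
  simp_rw [← hterm]
  symm
  apply Finset.sum_of_injOn (fun f => eW n w f)
  · exact eW_inj.injOn
  · intro f _
    rw [Finset.mem_coe, Finset.mem_powerset]
    intro c hc
    simp only [eW, Finset.mem_filter, Finset.mem_univ, true_and] at hc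
    obtain ⟨b, c', rfl, _⟩ := hc
    exact hY b c'
  · intro W hW hWn
    rw [Finset.mem_powerset] at hW
    have hex : ∃ c ∈ W, fl (n := n) (w := w) (B := B) ζ c = 0 := by
      by_contra hcon
      push Not at hcon
      apply hWn
      refine ⟨fun b => Finset.univ.filter fun c => Sum.inr (b, Sum.inr c) ∈ W, by simp, ?_⟩
      ext c
      rcases c with u | ⟨b, d | c'⟩
      · constructor
        · intro h
          simp only [eW, Finset.mem_filter, Finset.mem_univ, true_and] at h
          obtain ⟨b, c', h1, _⟩ := h
          exact absurd h1 (by simp)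
        · intro h; exact absurd (hW h) (hU u)
      · constructor
        · intro h
          simp only [eW, Finset.mem_filter, Finset.mem_univ, true_and] at h
          obtain ⟨b, c', h1, _⟩ := h
          exact absurd h1 (by simp)
        · intro h; exact absurd rfl (hcon _ h)
      · rw [mem_eW]; simp
    obtain ⟨c, hc, hc0⟩ := hex
    rw [eps_lin_pow]
    split_ifs
    · rw [Finset.prod_eq_zero hc hc0, mul_zero, zero_mul]
    · rw [zero_mul]
  · intro f _
    rfl

/-- the sum of the degree `k` squarefree coefficients -/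
noncomputable def phi {w : ℕ} (k : ℕ) (p : MvPolynomial (Fin w) R) : R :=
  ∑ S ∈ (Finset.univ : Finset (Fin w)).powersetCard k, eps S p

/-- the permanent gadget: the permanent of the big matrix is a constant times the sum over the
blocks of the `k`-subpermanent sums -/
theorem gadget (ζ : Fin k → R) (κ : R) (hk : 0 < k) (hkn : k ≤ n) (hB : 0 < B)
    (hζ : ∀ t ≤ k, ∑ V : Finset (Fin k), (if V.card = t then ∏ c ∈ V, ζ c else 0) =
      if t = 0 then 1 else if t = k then κ else 0)
    (s : Fin n → R) (a : Fin B → Fin n → Fin w → R) :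
    eps Finset.univ ((∏ i : Fin n, lin (rowR (k := k) s a i)) *
        ∏ r : RowV k w B, lin (rowV ζ r)) =
      ((n - k).factorial : R) * (w.factorial : R) ^ B * (((B - 1) * k).factorial : R) *
        κ ^ (B - 1) * ∑ b : Fin B, phi k (∏ i : Fin n, (C (s i) + lin (a b i))) := by
  classical
  rw [eps_mul]
  have hcardU : Fintype.card (Col n k w B) = (n - k) + B * (w + k) := by
    simp [Fintype.card_sum, Fintype.card_prod]
  have hBk : B * k = (B - 1) * k + k := by
    conv_lhs => rw [show B = (B - 1) + 1 by omega]
    ring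
  -- size of the complement
  have hcompl : ∀ S : Finset (Col n k w B), S.card = n →
      (Finset.univ \ S).card = B * w + (B - 1) * k := by
    intro S hS
    rw [Finset.card_sdiff_of_subset (Finset.subset_univ S), Finset.card_univ, hcardU, hS,
      mul_add]
    omega
  have hblk : ∀ (S : Finset (Col n k w B)) (b : Fin B),
      ((Finset.univ \ S) ∩ blk n k w b).card + (S ∩ blk n k w b).card = w + k := by
    intro S b
    have h1 : (blk n k w b).card = w + k := by
      have : blk n k w b = (Finset.univ : Finset (Fin w ⊕ Fin k)).map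
          ⟨fun d => Sum.inr (b, d), by intro d d' h; simpa using h⟩ := by
        ext c
        rw [mem_blk]
        simp only [Finset.mem_map, Finset.mem_univ, true_and]
        constructor
        · rintro ⟨d, rfl⟩; exact ⟨d, rfl⟩
        · rintro ⟨d, rfl⟩; exact ⟨d, rfl⟩
      rw [this, Finset.card_map]
      simp
    rw [← h1, ← Finset.card_union_of_disjoint]
    · congr 1
      ext c
      simp only [Finset.mem_union, Finset.mem_inter, Finset.mem_sdiff, Finset.mem_univ, true_and]
      tauto
    · rw [Finset.disjoint_left]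
      intro c hc hc'
      simp only [Finset.mem_inter, Finset.mem_sdiff] at hc hc'
      exact hc.1.2 hc'.1
  unfold phi
  rw [Finset.mul_sum]
  simp_rw [Finset.mul_sum]
  rw [← Finset.sum_product' (s := (Finset.univ : Finset (Fin B)))
    (t := (Finset.univ : Finset (Fin w)).powersetCard k)
    (f := fun b J => ((n - k).factorial : R) * (w.factorial : R) ^ B *
      (((B - 1) * k).factorial : R) * κ ^ (B - 1) *
      eps J (∏ i : Fin n, (C (s i) + lin (a b i))))]
  symm
  apply Finset.sum_of_injOn (fun x : Fin B × Finset (Fin w) =>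
    ((Finset.univ : Finset (Fin (n - k))).disjSum (x.2.map (embX k x.1))))
  · rintro ⟨b, J⟩ hx ⟨b', J'⟩ hx' h
    simp only [Finset.coe_product, Set.mem_prod, Finset.mem_coe, Finset.mem_powersetCard] at hx hx'
    have h1 : J.map (embX k b) = J'.map (embX k b') := by
      ext x
      have := congrArg (fun S => (Sum.inr x : Col n k w B) ∈ S) h
      simpa using this
    obtain ⟨j, hj⟩ : J.Nonempty := Finset.card_pos.mp (by omega)
    have h2 : embX k b j ∈ J'.map (embX k b') := by
      rw [← h1]; exact Finset.mem_map_of_mem _ hj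
    obtain ⟨j', _, h3⟩ := Finset.mem_map.mp h2
    have h4 : b' = b := congrArg Prod.fst h3
    subst h4
    rw [Finset.map_inj.mp h1]
  · intro x _
    simp
  · intro S _ hS
    by_contra hne
    have hR : eps S (∏ i : Fin n, lin (rowR (k := k) s a i)) ≠ 0 := left_ne_zero_of_mul hne
    have hQ : eps (Finset.univ \ S) (∏ r : RowV k w B, lin (rowV ζ r)) ≠ 0 :=
      right_ne_zero_of_mul hne
    have hU : ∀ u, (Sum.inl u : Col n k w B) ∈ S := by
      intro u
      by_contra hu
      apply hQ
      apply eps_prod_zero_of_col _ _ (Sum.inl u)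
      · rintro (⟨b, j⟩ | r) _ <;> rfl
      · exact Finset.mem_sdiff.mpr ⟨Finset.mem_univ _, hu⟩
    have hY : ∀ b c, (Sum.inr (b, Sum.inr c) : Col n k w B) ∉ S := by
      intro b c hc
      apply hR
      exact eps_prod_zero_of_col (R := R) Finset.univ (rowR s a) (Sum.inr (b, Sum.inr c))
        (fun i _ => rfl) S hc
    have hcard : S.card = n := by
      by_contra hc
      apply hR
      apply eps_prod_zero_of_card
      rwa [Finset.card_univ, Fintype.card_fin]
    rw [eps_Q ζ (Finset.univ \ S) (fun u hu => (Finset.mem_sdiff.mp hu).2 (hU u))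
      (fun b c => Finset.mem_sdiff.mpr ⟨Finset.mem_univ _, hY b c⟩) (hcompl S hcard)] at hQ
    have hprod := right_ne_zero_of_mul hQ
    have hfac : ∀ b : Fin B, ∑ V : Finset (Fin k),
        (if V.card + w = ((Finset.univ \ S) ∩ blk n k w b).card then ∏ c ∈ V, ζ c else 0) ≠ 0 :=
      fun b h => hprod (Finset.prod_eq_zero (Finset.mem_univ b) h)
    have hTU : ∀ u, (Sum.inl u : Col n k w B) ∉ Finset.univ \ S :=
      fun u hu => (Finset.mem_sdiff.mp hu).2 (hU u)
    have hsum : ∑ b : Fin B, (S ∩ blk n k w b).card = k := by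
      have h1 : ∑ b : Fin B, (((Finset.univ \ S) ∩ blk n k w b).card +
          (S ∩ blk n k w b).card) = B * (w + k) := by
        rw [Finset.sum_congr rfl (fun b _ => hblk S b), Finset.sum_const, Finset.card_univ,
          Fintype.card_fin, smul_eq_mul]
      rw [Finset.sum_add_distrib, ← card_eq_sum_blk _ hTU, hcompl S hcard, mul_add] at h1
      omega
    have hle : ∀ b : Fin B, (S ∩ blk n k w b).card ≤ k := by
      intro b
      exact (Finset.single_le_sum (f := fun b => (S ∩ blk n k w b).card)
        (fun _ _ => Nat.zero_le _) (Finset.mem_univ b)).trans hsum.le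
    have h0k : ∀ b : Fin B, (S ∩ blk n k w b).card = 0 ∨ (S ∩ blk n k w b).card = k := by
      intro b
      have h1 := hfac b
      have h2 := hblk S b
      have h3 := hle b
      have h4 : ∀ V : Finset (Fin k),
          (if V.card + w = ((Finset.univ \ S) ∩ blk n k w b).card then ∏ c ∈ V, ζ c else 0) =
          (if V.card = k - (S ∩ blk n k w b).card then ∏ c ∈ V, ζ c else 0) := by
        intro V
        by_cases h5 : V.card = k - (S ∩ blk n k w b).card
        · rw [if_pos h5, if_pos (by omega)]
        · rw [if_neg h5, if_neg (by omega)]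
      simp_rw [h4] at h1
      rw [hζ _ (Nat.sub_le _ _)] at h1
      by_contra hcon
      push Not at hcon
      apply h1
      rw [if_neg (by omega), if_neg (by omega)]
    obtain ⟨b, hb⟩ : ∃ b : Fin B, (S ∩ blk n k w b).card = k := by
      by_contra hcon
      push Not at hcon
      have : ∑ b : Fin B, (S ∩ blk n k w b).card = 0 :=
        Finset.sum_eq_zero fun b _ => (h0k b).resolve_right (hcon b)
      omega
    have hother : ∀ b' : Fin B, b' ≠ b → S ∩ blk n k w b' = ∅ := by
      intro b' hb'
      rw [← Finset.card_eq_zero]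
      have h1 := Finset.add_sum_erase Finset.univ (fun b => (S ∩ blk n k w b).card)
        (Finset.mem_univ b)
      rw [hsum, hb] at h1
      have h2 : ∑ b ∈ Finset.univ.erase b, (S ∩ blk n k w b).card = 0 := by omega
      exact (Finset.sum_eq_zero_iff.mp h2) b' (Finset.mem_erase.mpr ⟨hb', Finset.mem_univ _⟩)
    have hS' : S = (Finset.univ : Finset (Fin (n - k))).disjSum
        ((Finset.univ.filter fun j : Fin w => (Sum.inr (b, Sum.inl j) : Col n k w B) ∈ S).map
          (embX k b)) := by
      ext c
      rcases c with u | ⟨b', j | c'⟩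
      · simp [hU u]
      · simp only [Finset.inr_mem_disjSum, Finset.mem_map, Finset.mem_filter, Finset.mem_univ,
          true_and]
        constructor
        · intro h
          have hbb : b' = b := by
            by_contra hne'
            have : (Sum.inr (b', Sum.inl j) : Col n k w B) ∈ S ∩ blk n k w b' :=
              Finset.mem_inter.mpr ⟨h, (mem_blk b' _).mpr ⟨_, rfl⟩⟩
            rw [hother b' hne'] at this
            exact Finset.notMem_empty _ this
          subst hbb
          exact ⟨j, h, rfl⟩
        · rintro ⟨j', h, h2⟩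
          have h3 : (b, Sum.inl j') = (b', (Sum.inl j : Fin w ⊕ Fin k)) := h2
          rw [Prod.mk.injEq, Sum.inl.injEq] at h3
          obtain ⟨rfl, rfl⟩ := h3
          exact h
      · simp only [Finset.inr_mem_disjSum, Finset.mem_map, Finset.mem_filter, Finset.mem_univ,
          true_and]
        constructor
        · intro h; exact absurd h (hY b' c')
        · rintro ⟨j', _, h2⟩
          have h3 : (b, Sum.inl j') = (b', (Sum.inr c' : Fin w ⊕ Fin k)) := h2
          rw [Prod.mk.injEq] at h3
          exact absurd h3.2 (by simp)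
    apply hS
    refine ⟨(b, Finset.univ.filter fun j : Fin w => (Sum.inr (b, Sum.inl j) : Col n k w B) ∈ S),
      ?_, hS'.symm⟩
    rw [Finset.mem_coe, Finset.mem_product]
    refine ⟨Finset.mem_univ _, ?_⟩
    rw [Finset.mem_powersetCard]
    refine ⟨Finset.subset_univ _, ?_⟩
    have h1 := congrArg Finset.card hS'
    rw [hcard, Finset.card_disjSum, Finset.card_map, Finset.card_univ, Fintype.card_fin] at h1
    have h2 : (Finset.univ.filter fun j : Fin w =>
        (Sum.inr (b, Sum.inl j) : Col n k w B) ∈ S).card = k := by omega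
    exact h2
  · rintro ⟨b, J⟩ hx
    rw [Finset.mem_product, Finset.mem_powersetCard] at hx
    have hJ : J.card = k := hx.2.2
    simp only
    set S : Finset (Col n k w B) :=
      (Finset.univ : Finset (Fin (n - k))).disjSum (J.map (embX k b)) with hSdef
    have hcard : S.card = n := by
      rw [hSdef, Finset.card_disjSum, Finset.card_map, Finset.card_univ, Fintype.card_fin, hJ]
      omega
    have hU : ∀ u, (Sum.inl u : Col n k w B) ∈ S := by intro u; simp [hSdef]
    have hY : ∀ b c, (Sum.inr (b, Sum.inr c) : Col n k w B) ∉ S := by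
      intro b' c h
      rw [hSdef, Finset.inr_mem_disjSum, Finset.mem_map] at h
      obtain ⟨j', _, h2⟩ := h
      have h3 : (b, Sum.inl j') = (b', (Sum.inr c : Fin w ⊕ Fin k)) := h2
      rw [Prod.mk.injEq] at h3
      exact absurd h3.2 (by simp)
    have hSb : (S ∩ blk n k w b).card = k := by
      have : S ∩ blk n k w b = (J.map (embX k b)).map ⟨Sum.inr, Sum.inr_injective⟩ := by
        ext c
        rw [Finset.mem_inter, mem_blk, hSdef]
        rcases c with u | ⟨b', d⟩
        · simp
        · simp only [Finset.inr_mem_disjSum, Finset.mem_map, Function.Embedding.coeFn_mk,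
            Sum.inr.injEq, exists_eq_right]
          constructor
          · rintro ⟨h, _⟩; exact h
          · rintro ⟨j, hj, h2⟩
            refine ⟨⟨j, hj, h2⟩, ?_⟩
            have h3 : (b, Sum.inl j) = (b', d) := h2
            rw [Prod.mk.injEq] at h3
            exact ⟨d, by rw [h3.1]⟩
      rw [this, Finset.card_map, Finset.card_map, hJ]
    have hSb' : ∀ b' : Fin B, b' ≠ b → (S ∩ blk n k w b').card = 0 := by
      intro b' hb'
      rw [Finset.card_eq_zero, Finset.eq_empty_iff_forall_notMem]
      intro c hc
      rw [Finset.mem_inter, mem_blk] at hc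
      obtain ⟨h1, d, hd⟩ := hc
      rw [hd, hSdef, Finset.inr_mem_disjSum, Finset.mem_map] at h1
      obtain ⟨j', _, h2⟩ := h1
      have h3 : (b, Sum.inl j') = (b', d) := h2
      rw [Prod.mk.injEq] at h3
      exact hb' h3.1.symm
    rw [eps_Q ζ (Finset.univ \ S) (fun u hu => (Finset.mem_sdiff.mp hu).2 (hU u))
      (fun b c => Finset.mem_sdiff.mpr ⟨Finset.mem_univ _, hY b c⟩) (hcompl S hcard)]
    have hfac : ∀ b' : Fin B, ∑ V : Finset (Fin k),
        (if V.card + w = ((Finset.univ \ S) ∩ blk n k w b').card then ∏ c ∈ V, ζ c else 0) =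
        if b' = b then 1 else κ := by
      intro b'
      by_cases hbb : b' = b
      · subst hbb
        rw [if_pos rfl]
        have h2 := hblk S b'
        rw [hSb] at h2
        have h3 := hζ 0 (Nat.zero_le k)
        rw [if_pos rfl] at h3
        rw [← h3]
        apply Finset.sum_congr rfl
        intro V _
        by_cases h5 : V.card = 0
        · rw [if_pos h5, if_pos (by omega)]
        · rw [if_neg h5, if_neg (by omega)]
      · rw [if_neg hbb]
        have h2 := hblk S b'
        rw [hSb' b' hbb] at h2
        have h3 := hζ k le_rfl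
        rw [if_neg (by omega), if_pos rfl] at h3
        rw [← h3]
        apply Finset.sum_congr rfl
        intro V _
        by_cases h5 : V.card = k
        · rw [if_pos h5, if_pos (by omega)]
        · rw [if_neg h5, if_neg (by omega)]
    have hprod : ∏ b' : Fin B, ∑ V : Finset (Fin k),
        (if V.card + w = ((Finset.univ \ S) ∩ blk n k w b').card then ∏ c ∈ V, ζ c else 0) =
        κ ^ (B - 1) := by
      rw [Finset.prod_congr rfl (fun b' _ => hfac b'),
        ← Finset.mul_prod_erase Finset.univ _ (Finset.mem_univ b), if_pos rfl, one_mul]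
      rw [Finset.prod_congr rfl (g := fun _ => κ)
        (fun b' hb' => if_neg (Finset.ne_of_mem_erase hb')), Finset.prod_const,
        Finset.card_erase_of_mem (Finset.mem_univ b), Finset.card_univ, Fintype.card_fin]
    rw [hprod, hSdef, eps_R s a b Finset.univ Finset.univ J (by
      rw [Finset.card_univ, Finset.card_univ, Fintype.card_fin, Fintype.card_fin, hJ]; omega),
      Finset.card_univ, Fintype.card_fin]
    ring

end Pool.Agent.H546R2.SL
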