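import Pool.Agent.H546R2.SL.A7

set_option autoImplicit false
set_option linter.unusedSectionVars false

open MvPolynomial Finset

namespace Pool.Agent.H546R2.SL

lemma exists_enum {K : Type*} (m : Multiset K) (k : ℕ) (h : Multiset.card m = k) :
    ∃ f : Fin k → K, (Finset.univ.val.map f : Multiset K) = m := by
  induction m using Quotient.inductionOn with
  | h l =>
    have hl : l.length = k := by simpa using h
    subst hl
    refine ⟨l.get, ?_⟩
    rw [Fin.univ_val_map, List.ofFn_get]
    rfl

lemma exists_zeta (K : Type*) [Field K] [IsAlgClosed K] (k : ℕ) (hk : 0 < k) :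
    ∃ ζ : Fin k → K, ∀ t ≤ k, ∑ V : Finset (Fin k), (if V.card = t then ∏ c ∈ V, ζ c else 0) =
      if t = 0 then 1 else if t = k then -1 else 0 := by
  classical
  set p : Polynomial K := Polynomial.X ^ k - Polynomial.C 1 with hp
  have hmonic : p.Monic := Polynomial.monic_X_pow_sub_C 1 hk.ne'
  have hdeg : p.natDegree = k := Polynomial.natDegree_X_pow_sub_C
  have hsplit : p.Splits := IsAlgClosed.splits p
  have hcard : p.roots.card = k := by rw [← hdeg]; exact hsplit.natDegree_eq_card_roots.symm
  have hprod : p = (p.roots.map fun a => Polynomial.X - Polynomial.C a).prod :=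
    hsplit.eq_prod_roots_of_monic hmonic
  obtain ⟨f, hf⟩ := exists_enum p.roots k hcard
  refine ⟨fun i => - f i, ?_⟩
  intro t ht
  have hp2 : p = ∏ i : Fin k, (Polynomial.X + Polynomial.C (- f i)) := by
    rw [hprod, ← hf, Multiset.map_map]
    unfold Finset.prod
    congr 1
    apply Multiset.map_congr rfl
    intro i _
    simp [sub_eq_add_neg]
  have h1 := Finset.prod_X_add_C_coeff (R := K) (Finset.univ : Finset (Fin k)) (fun i => - f i)
    (k := k - t) (by simp)
  rw [← hp2, Finset.card_univ, Fintype.card_fin, Nat.sub_sub_self ht] at h1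
  rw [← Finset.sum_filter]
  have h2 : (Finset.univ.filter fun V : Finset (Fin k) => V.card = t) =
      Finset.univ.powersetCard t := by
    ext V; simp [Finset.mem_powersetCard]
  rw [h2, ← h1, hp, Polynomial.coeff_sub, Polynomial.coeff_X_pow, Polynomial.coeff_C]
  by_cases h0 : t = 0
  · rw [if_pos h0, if_pos (by omega), if_neg (by omega), sub_zero]
  · rw [if_neg h0, if_neg (by omega)]
    by_cases h3 : t = k
    · rw [if_pos h3, if_pos (by omega)]; ring
    · rw [if_neg h3, if_neg (by omega)]; ring

/-- `phi` of a product with one row replaced -/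
lemma phi_add {R : Type*} [CommRing R] {w : ℕ} (k : ℕ) (p q : MvPolynomial (Fin w) R) :
    phi k (p + q) = phi k p + phi k q := by
  unfold phi
  simp_rw [eps_add, Finset.sum_add_distrib]

lemma phi_sum {R ι : Type*} [CommRing R] {w : ℕ} (k : ℕ) (s : Finset ι)
    (p : ι → MvPolynomial (Fin w) R) : phi k (∑ i ∈ s, p i) = ∑ i ∈ s, phi k (p i) := by
  unfold phi
  simp_rw [eps_sum]
  rw [Finset.sum_comm]

lemma phi_C_mul {R : Type*} [CommRing R] {w : ℕ} (k : ℕ) (a : R) (p : MvPolynomial (Fin w) R) :
    phi k (C a * p) = a * phi k p := by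
  unfold phi
  simp_rw [eps_C_mul, Finset.mul_sum]

/-- row identity: with `F` the full product, the derivative along row `i` is a polynomial in the
entries of row `i` with coefficients depending only on `F` -/
lemma row_identity {R : Type*} [CommRing R] {w n : ℕ} (k : ℕ) (hk : 0 < k)
    (a : Fin n → Fin w → R) (i : Fin n) (j : Fin w) :
    phi k (X j * ∏ i' ∈ Finset.univ.erase i, (1 + lin (a i'))) =
      ∑ r ∈ Finset.range k, (-1) ^ r *
        phi k (X j * ((∏ i', (1 + lin (a i'))) * lin (a i) ^ r)) := by
  classical
  set Q := ∏ i' ∈ Finset.univ.erase i, (1 + lin (a i')) with hQ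
  have hF : ∏ i', (1 + lin (a i')) = (1 + lin (a i)) * Q := by
    rw [hQ]
    exact (Finset.mul_prod_erase Finset.univ (fun i' => (1 + lin (a i') : MvPolynomial (Fin w) R))
      (Finset.mem_univ i)).symm
  have hgeom : (1 + lin (a i)) * ∑ r ∈ Finset.range k, (-lin (a i)) ^ r =
      1 - (-lin (a i)) ^ k := by
    have := mul_neg_geom_sum (-lin (a i)) k
    rw [sub_neg_eq_add] at this
    exact this
  have hX : X j * Q = X j * ((1 + lin (a i)) * Q) * (∑ r ∈ Finset.range k, (-lin (a i)) ^ r) +
      X j * Q * (-lin (a i)) ^ k := by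
    calc X j * Q = X j * Q * ((1 - (-lin (a i)) ^ k) + (-lin (a i)) ^ k) := by ring
      _ = _ := by rw [← hgeom]; ring
  -- the error term has high degree
  have hXlin : (X j : MvPolynomial (Fin w) R) = lin (Pi.single j 1) := by
    unfold lin
    rw [Finset.sum_eq_single j]
    · simp
    · intro c _ hc; rw [Pi.single_eq_of_ne hc]; simp
    · intro h; exact absurd (Finset.mem_univ j) h
  have herr : phi k (X j * Q * (-lin (a i)) ^ k) = 0 := by
    unfold phi
    apply Finset.sum_eq_zero
    intro S hS
    have hScard : S.card = k := (Finset.mem_powersetCard.mp hS).2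
    have h1 : X j * Q * (-lin (a i)) ^ k = C ((-1) ^ k) * (lin (Pi.single j 1) *
        (lin (a i) ^ k * Q)) := by
      rw [← hXlin, neg_pow, map_pow, map_neg, map_one]; ring
    rw [h1, eps_C_mul, eps_lin_mul]
    rw [Finset.sum_eq_zero, mul_zero]
    intro c hc
    rw [eps_mul, Finset.sum_eq_zero, mul_zero]
    intro T hT
    rw [eps_lin_pow, if_neg, zero_mul]
    have h2 := Finset.card_le_card (Finset.mem_powerset.mp hT)
    rw [Finset.card_erase_of_mem hc, hScard] at h2
    omega
  rw [hX, phi_add, herr, add_zero, hF, Finset.mul_sum, phi_sum]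
  apply Finset.sum_congr rfl
  intro r _
  have h3 : X j * ((1 + lin (a i)) * Q) * (-lin (a i)) ^ r =
      C ((-1) ^ r) * (X j * ((1 + lin (a i)) * Q * lin (a i) ^ r)) := by
    rw [neg_pow, map_pow, map_neg, map_one]; ring
  rw [h3, phi_C_mul]

/-- the coefficient function attached to `F` -/
noncomputable def cof {R : Type*} [CommRing R] {w : ℕ} (k : ℕ) (F : MvPolynomial (Fin w) R)
    (T : Finset (Fin w)) : R :=
  ∑ S ∈ (Finset.univ : Finset (Fin w)).powersetCard k, if T ⊆ S then eps (S \ T) F else 0

lemma cof_card {R : Type*} [CommRing R] {w : ℕ} (k : ℕ) (F : MvPolynomial (Fin w) R)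
    (hF : eps ∅ F = 1) (T : Finset (Fin w)) (hT : T.card = k) : cof k F T = 1 := by
  unfold cof
  rw [Finset.sum_eq_single T]
  · rw [if_pos (Finset.Subset.refl T), Finset.sdiff_self]; exact hF
  · intro S hS hne
    rw [if_neg]
    intro hsub
    apply hne
    exact (Finset.eq_of_subset_of_card_le hsub
      (by rw [(Finset.mem_powersetCard.mp hS).2, hT])).symm
  · intro h
    exact absurd (Finset.mem_powersetCard.mpr ⟨Finset.subset_univ T, hT⟩) h

lemma X_eq_lin {R : Type*} [CommRing R] {w : ℕ} (j : Fin w) :
    (X j : MvPolynomial (Fin w) R) = lin (Pi.single j 1) := by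
  unfold lin
  rw [Finset.sum_eq_single j]
  · simp
  · intro c _ hc; rw [Pi.single_eq_of_ne hc]; simp
  · intro h; exact absurd (Finset.mem_univ j) h

lemma eps_X_mul {R : Type*} [CommRing R] {w : ℕ} (j : Fin w) (S : Finset (Fin w))
    (p : MvPolynomial (Fin w) R) : eps S (X j * p) = if j ∈ S then eps (S.erase j) p else 0 := by
  rw [X_eq_lin, eps_lin_mul]
  by_cases h : j ∈ S
  · rw [if_pos h, Finset.sum_eq_single_of_mem j h]
    · rw [Pi.single_eq_same, one_mul]
    · intro c _ hc; rw [Pi.single_eq_of_ne hc, zero_mul]
  · rw [if_neg h]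
    apply Finset.sum_eq_zero
    intro c hc
    rw [Pi.single_eq_of_ne, zero_mul]
    rintro rfl
    exact h hc

/-- expansion of one term of the row identity -/
lemma phi_expand {R : Type*} [CommRing R] {w : ℕ} (k : ℕ) (F : MvPolynomial (Fin w) R)
    (a : Fin w → R) (j : Fin w) (r : ℕ) :
    phi k (X j * (F * lin a ^ r)) =
      (r.factorial : R) * ∑ J ∈ (Finset.univ.erase j).powersetCard r,
        (∏ c ∈ J, a c) * cof k F (insert j J) := by
  classical
  have h1 : ∀ S : Finset (Fin w), eps S (X j * (F * lin a ^ r)) =
      ∑ J ∈ (Finset.univ.erase j).powersetCard r,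
        (r.factorial : R) * ((∏ c ∈ J, a c) *
          (if insert j J ⊆ S then eps (S \ insert j J) F else 0)) := by
    intro S
    rw [eps_X_mul]
    by_cases hj : j ∈ S
    · rw [if_pos hj, mul_comm F, eps_mul]
      -- restrict the left sum to sets of cardinality r
      have h2 : ∑ T ∈ (S.erase j).powerset, eps T (lin a ^ r) * eps (S.erase j \ T) F =
          ∑ T ∈ (S.erase j).powersetCard r,
            (r.factorial : R) * ((∏ c ∈ T, a c) * eps (S.erase j \ T) F) := by
        rw [← Finset.sum_filter_add_sum_filter_not (S.erase j).powerset (fun T => T.card = r)]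
        have h3 : ∑ T ∈ (S.erase j).powerset.filter (fun T => ¬ T.card = r),
            eps T (lin a ^ r) * eps (S.erase j \ T) F = 0 := by
          apply Finset.sum_eq_zero
          intro T hT
          rw [Finset.mem_filter] at hT
          rw [eps_lin_pow, if_neg hT.2, zero_mul]
        rw [h3, add_zero, ← Finset.powersetCard_eq_filter]
        apply Finset.sum_congr rfl
        intro T hT
        rw [eps_lin_pow, if_pos (Finset.mem_powersetCard.mp hT).2]
        ring
      rw [h2]
      apply Finset.sum_subset_zero_on_sdiff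
      · exact Finset.powersetCard_mono (Finset.erase_subset_erase j (Finset.subset_univ S))
      · intro J hJ
        rw [Finset.mem_sdiff, Finset.mem_powersetCard, Finset.mem_powersetCard] at hJ
        rw [if_neg, mul_zero, mul_zero]
        intro hsub
        apply hJ.2
        refine ⟨?_, hJ.1.2⟩
        intro c hc
        rw [Finset.mem_erase]
        exact ⟨(Finset.mem_erase.mp (hJ.1.1 hc)).1, hsub (Finset.mem_insert_of_mem hc)⟩
      · intro J hJ
        rw [Finset.mem_powersetCard] at hJ
        rw [if_pos]
        · congr 3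
          ext c
          simp only [Finset.mem_sdiff, Finset.mem_erase, Finset.mem_insert]
          tauto
        · intro c hc
          rcases Finset.mem_insert.mp hc with h4 | h4
          · rw [h4]; exact hj
          · exact Finset.mem_of_mem_erase (hJ.1 h4)
    · rw [if_neg hj]
      symm
      apply Finset.sum_eq_zero
      intro J _
      rw [if_neg, mul_zero, mul_zero]
      intro hsub
      exact hj (hsub (Finset.mem_insert_self j J))
  unfold phi
  simp_rw [h1]
  rw [Finset.sum_comm, Finset.mul_sum]
  apply Finset.sum_congr rfl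
  intro J _
  unfold cof
  rw [Finset.mul_sum, Finset.mul_sum]

end Pool.Agent.H546R2.SL
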